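import Pool.Agent.Lib.Pf91712p.Defs

/-!
The advice of the reduction is computable.

PLAN. `on1 n = List.replicate n true`: primitive recursive in `n` (e.g. `List.map (fun _ => true)
(List.range n)`, `Primrec.list_range`, `Primrec.list_map`); `pr a b` (`List.flatMap`, append): primitive
recursive in `(a, b)`, e.g. by `Primrec.list_flatMap` or `List.foldr`/`list_rec`; then
`Primrec.to_comp`, `Computable.comp`, `Computable.pair`.
-/

set_option autoImplicit false

namespace Pool.Agent.Lib.Pf91712p

open Pool.Agent.Lib.Pa76659 (Str Lang)
open Pool.Agent.Lib.Pa76659G (pr on1)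

/-- the advice of the reduction -/
def adv (j : ℕ) (t h : ℕ → ℕ) (π : ℕ → Str) (k : ℕ) : Str :=
  pr (π k) (on1 j ++ false :: (on1 (t k) ++ false :: (on1 (h k) ++ [false])))

namespace PosAAux

theorem primrec_on1 : Primrec on1 := by
  refine (Primrec.list_map (f := List.range) (g := fun _ _ => true) Primrec.list_range
    (Primrec.const true).to₂).of_eq fun n => ?_
  simp only [on1]
  rw [List.map_const', List.length_range]

theorem primrec_pr : Primrec₂ pr := by
  have h1 : Primrec₂ (fun (_ : Str × Str) (c : Bool) => [true, c]) :=
    (Primrec.list_cons.comp (Primrec.const true)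
      (Primrec.list_cons.comp Primrec.snd (Primrec.const []))).to₂
  have h2 : Primrec (fun p : Str × Str => p.1.flatMap (fun c => [true, c])) :=
    Primrec.list_flatMap Primrec.fst h1
  have h3 : Primrec (fun p : Str × Str => false :: p.2) :=
    Primrec.list_cons.comp (Primrec.const false) Primrec.snd
  exact (Primrec.list_append.comp h2 h3).to₂

end PosAAux

open PosAAux

theorem computable_on1 : Computable on1 := primrec_on1.to_comp

theorem computable_adv (j : ℕ) {t h : ℕ → ℕ} {π : ℕ → Str} (ht : Computable t)
    (hh : Computable h) (hπ : Computable π) : Computable (adv j t h π) := by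
  have hc : ∀ {f : ℕ → Str}, Computable f → Computable (fun k => false :: f k) := fun hf =>
    Primrec.list_cons.to_comp.comp (Computable.const false) hf
  have ha : ∀ {f g : ℕ → Str}, Computable f → Computable g → Computable (fun k => f k ++ g k) :=
    fun hf hg => Primrec.list_append.to_comp.comp hf hg
  have h1 : Computable (fun k => on1 (h k) ++ [false]) :=
    ha (computable_on1.comp hh) (Computable.const [false])
  have h2 : Computable (fun k => on1 (t k) ++ false :: (on1 (h k) ++ [false])) :=
    ha (computable_on1.comp ht) (hc h1)
  have h3 : Computable (fun k => on1 j ++ false :: (on1 (t k) ++ false :: (on1 (h k) ++ [false]))) :=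
    ha (Computable.const (on1 j)) (hc h2)
  exact primrec_pr.to_comp.comp hπ h3

theorem computable_H {t h : ℕ → ℕ} (ht : Computable t) (hh : Computable h) :
    Computable (fun k => (t k * h k) * (t k * h k + 1)) := by
  have h1 : Computable (fun k => t k * h k) := Primrec.nat_mul.to_comp.comp ht hh
  have h2 : Computable (fun k => t k * h k + 1) := Primrec.succ.to_comp.comp h1
  exact Primrec.nat_mul.to_comp.comp h1 h2

end Pool.Agent.Lib.Pf91712p
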