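import Pool.Agent.Lib.Pf91712p.DTree
import Pool.Agent.Lib.Pa76659.LBReq

/-!
Alternating quantifiers over blocks as OR-NOT circuits, and as the tree `tr` of `Pa76659.Hier`.
-/

set_option autoImplicit false
set_option maxHeartbeats 1000000

namespace Pool.Agent.Lib.Pf91712p

open Pool.Agent.Lib.Pa76659 (Str Lang Prog PO accepts inp DT SL accTree IsC bs bs_length bs_inj
  bs_surj)
open Pool.Agent.Lib.Pa76659.Hier (tr tr_congr)

open Classical in
theorem alt_isC (S : Set Str) (w m tt : ℕ) (hm : m ≤ w) (R : Lang → Str → Prop) :
    ∀ (t : ℕ) (w0 : Str), (∀ v : Str, v.length = w0.length + t * m →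
      IsC S w tt 0 (fun O => decide (R O v))) →
    IsC S w tt t (fun O => decide (Alt m t true (R O) w0)) ∧
      IsC S w tt t (fun O => !decide (Alt m t false (R O) w0)) := by
  intro t
  induction t with
  | zero =>
      intro w0 h
      have h1 := h w0 (by simp)
      refine ⟨h1, ?_⟩
      obtain ⟨T, h2, h3, h4⟩ := h1
      refine ⟨T.map (fun b => !b), by simpa using h2, h3.map _, fun O => ?_⟩
      rw [DT.eval_map, ← h4 O]
      rfl
  | succ t ih =>
      intro w0 h
      have hc : Fintype.card (List.Vector Bool m) ≤ 2 ^ w := by
        rw [card_vector, Fintype.card_bool]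
        exact Nat.pow_le_pow_right (by norm_num) hm
      have h1 : ∀ z : List.Vector Bool m, IsC S w tt t
          (fun O => decide (Alt m t true (R O) (w0 ++ z.1))) ∧
          IsC S w tt t (fun O => !decide (Alt m t false (R O) (w0 ++ z.1))) := by
        intro z
        apply ih
        intro v hv
        apply h
        rw [hv, List.length_append, z.2]
        ring
      constructor
      · apply IsC.of_exists hc _ (fun z => (h1 z).2)
        intro O
        simp only [Alt, decide_eq_true_eq, Bool.not_eq_false']
        constructor
        · rintro ⟨z, hz, h2⟩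
          exact ⟨⟨z, hz⟩, h2⟩
        · rintro ⟨z, h2⟩
          exact ⟨z.1, z.2, h2⟩
      · apply IsC.of_exists hc _ (fun z => (h1 z).1)
        intro O
        simp only [Alt, Bool.not_eq_true', decide_eq_false_iff_not]
        constructor
        · intro h2
          push Not at h2
          obtain ⟨z, hz, h3⟩ := h2
          exact ⟨⟨z, hz⟩, h3⟩
        · rintro ⟨z, h2⟩ h3
          exact h2 (h3 z.1 z.2)

/-- the string of a path in the tree -/
noncomputable def wd (m : ℕ) : List ℕ → Str
  | [] => []
  | y :: u => wd m u ++ bs m y

theorem wd_length (m : ℕ) : ∀ u : List ℕ, (wd m u).length = u.length * m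
  | [] => by simp [wd]
  | y :: u => by
      rw [wd, List.length_append, bs_length, wd_length m u, List.length_cons, Nat.succ_mul]

theorem wd_inj (m : ℕ) : ∀ u u' : List ℕ, u.length = u'.length → (∀ a ∈ u, a < 2 ^ m) →
    (∀ a ∈ u', a < 2 ^ m) → wd m u = wd m u' → u = u'
  | [], [], _, _, _, _ => rfl
  | [], _ :: _, h, _, _, _ => by simp at h
  | _ :: _, [], h, _, _, _ => by simp at h
  | y :: u, y' :: u', h, h1, h2, he => by
      have hl : u.length = u'.length := by simpa using h
      have hl2 : (wd m u).length = (wd m u').length := by rw [wd_length, wd_length, hl]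
      simp only [wd] at he
      obtain ⟨h5, h6⟩ := List.append_inj he hl2
      have h7 := wd_inj m u u' hl (fun a ha => h1 a (List.mem_cons_of_mem _ ha))
        (fun a ha => h2 a (List.mem_cons_of_mem _ ha)) h5
      subst h7
      rw [bs_inj (h1 y List.mem_cons_self) (h2 y' List.mem_cons_self) h6]

open Classical in
theorem alt_tr_aux (m : ℕ) (R : Str → Prop) : ∀ (j : ℕ) (u : List ℕ),
    decide (Alt m j true R (wd m u)) = tr (fun _ => 2 ^ m) j
      (fun u => xor (decide (R (wd m u))) (decide (j % 2 = 1))) u ∧
    (!decide (Alt m j false R (wd m u))) = tr (fun _ => 2 ^ m) j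
      (fun u => xor (!decide (R (wd m u))) (decide (j % 2 = 1))) u
  | 0, u => by
      constructor
      · simp [Alt, tr]
      · simp [Alt, tr]
  | j + 1, u => by
      have ih := alt_tr_aux m R j
      have e1 : (fun u => xor (decide (R (wd m u))) (decide ((j + 1) % 2 = 1))) =
          (fun u => xor (!decide (R (wd m u))) (decide (j % 2 = 1))) := by
        funext v
        rcases Nat.mod_two_eq_zero_or_one j with h | h
        · have h2 : (j + 1) % 2 = 1 := by omega
          simp [h, h2]
        · have h2 : (j + 1) % 2 = 0 := by omega
          simp [h, h2]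
      have e2 : (fun u => xor (!decide (R (wd m u))) (decide ((j + 1) % 2 = 1))) =
          (fun u => xor (decide (R (wd m u))) (decide (j % 2 = 1))) := by
        funext v
        rcases Nat.mod_two_eq_zero_or_one j with h | h
        · have h2 : (j + 1) % 2 = 1 := by omega
          simp [h, h2]
        · have h2 : (j + 1) % 2 = 0 := by omega
          simp [h, h2]
      rw [e1, e2]
      constructor
      · simp only [tr]
        rw [decide_eq_decide]
        simp only [Alt]
        constructor
        · rintro ⟨z, hz, h⟩
          obtain ⟨y, hy, rfl⟩ := bs_surj hz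
          refine ⟨y, hy, ?_⟩
          rw [← (ih (y :: u)).2]
          simpa [wd] using h
        · rintro ⟨y, hy, h⟩
          rw [← (ih (y :: u)).2] at h
          refine ⟨bs m y, bs_length _ _, ?_⟩
          simpa [wd] using h
      · simp only [tr]
        rw [← decide_not, decide_eq_decide]
        simp only [Alt]
        push Not
        constructor
        · rintro ⟨z, hz, h⟩
          obtain ⟨y, hy, rfl⟩ := bs_surj hz
          refine ⟨y, hy, ?_⟩
          rw [← (ih (y :: u)).1]
          simpa [wd] using h
        · rintro ⟨y, hy, h⟩
          rw [← (ih (y :: u)).1] at h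
          refine ⟨bs m y, bs_length _ _, ?_⟩
          simpa [wd] using h

open Classical in
theorem alt_tr (m t : ℕ) (R : Str → Prop) :
    decide (Alt m t true R []) = tr (fun _ => 2 ^ m) t
      (fun u => xor (decide (R (wd m u))) (decide (t % 2 = 1))) [] :=
  (alt_tr_aux m R t []).1

end Pool.Agent.Lib.Pf91712p
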