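import Pool.Agent.Lib.Pa76659G.Spec
import Pool.Agent.Lib.Pa76659G.UoSpec

/-!
Relativised parameterized classes: alternating problems, counting problems, model checking of a
relation which is given by the oracle.
-/

set_option autoImplicit false

namespace Pool.Agent.Lib.Pf91712p

open Pool.Agent.Lib.Pa76659 (Str Lang PO)
open Pool.Agent.Lib.Pa76659G (pr on1 emp FPO)

/-- `⌊log₂ |x|⌋`, the length of the numbers (elements) of the instance `x` -/
def lg (x : Str) : ℕ := Nat.log 2 x.length

/-- `t` alternating quantifiers over the strings of length `m`, the first one is `∃` if `b` is true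
and `∀` otherwise; the quantified strings are appended to `w`, and `R` is the matrix. -/
def Alt (m : ℕ) : ℕ → Bool → (Str → Prop) → Str → Prop
  | 0, _, R, w => R w
  | t + 1, true, R, w => ∃ z : Str, z.length = m ∧ Alt m t false R (w ++ z)
  | t + 1, false, R, w => ∀ z : Str, z.length = m → Alt m t true R (w ++ z)

/-- the parameterized problem: `t k` alternating quantifiers over blocks of `h k * log |x|` bits,
the matrix is `B`, applied to the instance `x`, the advice `π k` and the blocks -/
def AltProb (t h : ℕ → ℕ) (π : ℕ → Str) (B : Lang) (x : Str) (k : ℕ) : Prop :=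
  Alt (h k * lg x) (t k) true (fun w => B (pr x (pr (π k) w)) = true) []

/-- `AW[P]` relative to `O`: the number of quantifier blocks may depend on the parameter. -/
def AWP (O : Lang) : Set (Str → ℕ → Prop) :=
  {L | ∃ (t h : ℕ → ℕ) (π : ℕ → Str) (B : Lang), Computable t ∧ Computable h ∧ Computable π ∧
    B ∈ PO O ∧ ∀ x k, L x k ↔ AltProb t h π B x k}

/-- The problems with `t` quantifier blocks, relative to `O` (the level `t` of the A-hierarchy with a
matrix that is decided in polynomial time; it contains `A[t]`). -/
def AltClass (O : Lang) (t : ℕ) : Set (Str → ℕ → Prop) :=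
  {L | ∃ (h : ℕ → ℕ) (π : ℕ → Str) (B : Lang), Computable h ∧ Computable π ∧ B ∈ PO O ∧
    ∀ x k, L x k ↔ AltProb (fun _ => t) h π B x k}

/-- `#W[1]` relative to `O`: the number of the tuples of `h k` elements which satisfy the relation
given by the oracle; the query is computed from `(x, k)` in fpt time, without oracle. -/
def SharpW1 (O : Lang) : Set (Str → ℕ → ℕ) :=
  {F | ∃ (h : ℕ → ℕ) (π : ℕ → Str) (R : Str → Str), Computable h ∧ Computable π ∧ R ∈ FPO emp ∧
    ∀ x k, F x k = Nat.card {u : Str // u.length = h k * lg x ∧ O (R (pr x (π k)) ++ u) = true}}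

/-- The oracle form of `p`-MC(`Σ_t`): the sentence `∃ u₁ ∀ u₂ ... R(u₁, ..., u_t)`, each `u_i` is a
tuple of `k` elements of the universe of the binary strings of length `⌊log₂ |x|⌋` and the relation
`R` of arity `t k` belongs to `x` and is given by the oracle. -/
def SigmaRel (O : Lang) (t : ℕ) (x : Str) (k : ℕ) : Prop :=
  Alt (k * lg x) t true (fun w => O (false :: pr x (pr (on1 k) w)) = true) []

end Pool.Agent.Lib.Pf91712p
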