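import Pool.Agent.Lib.Pa76659.Hier

/-!
Random restrictions which keep, in every one of very many families, a variable that is alive
together with its block.

PLAN. `count_pairs`: the functions `f : ι → Fin (Q+1)` such that for every `s ∈ A` not both
`f (p s) = 0` and `f (q s) = 0`; the `2 |A|` coordinates are distinct, so the number is
`((Q+1)^2 - 1)^|A| * (Q+1)^(card ι - 2|A|)`. Induction on `A` (split off the two coordinates of one
`s`, e.g. with `Function.update` and a fibre count: every function vanishing condition on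
`insert s A` has the fraction `1 - 1/(Q+1)^2` of the one for `A`), and
`2 * (q-1)^q ≤ q^q` for `q = (Q+1)^2` (see `count_nonzero` in `Pa76659.Count`, inequality `h3`
with `Q := q - 1`).
-/

set_option autoImplicit false
set_option maxHeartbeats 4000000

namespace Pool.Agent.Lib.Pf91712p

open Pool.Agent.Lib.Pa76659 Pool.Agent.Lib.Pa76659.Switch Pool.Agent.Lib.Pa76659.Hier

/-- `M ^ a` is at most the fraction `1 / 2 ^ c` of `(M + 1) ^ a` if `(M + 1) c ≤ a` -/
theorem pow_two_le (M a c : ℕ) (hA : (M + 1) * c ≤ a) : M ^ a * 2 ^ c ≤ (M + 1) ^ a := by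
  have h3 : 2 * M ^ (M + 1) ≤ (M + 1) ^ (M + 1) := by
    have h4 : ∀ n : ℕ, M ^ (n + 1) + (n + 1) * M ^ n ≤ (M + 1) ^ (n + 1) := by
      intro n
      induction n with
      | zero => simp
      | succ n ih =>
          calc M ^ (n + 1 + 1) + (n + 1 + 1) * M ^ (n + 1)
              ≤ (M ^ (n + 1) + (n + 1) * M ^ n) * (M + 1) := by
                have : (M ^ (n + 1) + (n + 1) * M ^ n) * (M + 1) =
                  M ^ (n + 1 + 1) + (n + 1 + 1) * M ^ (n + 1) + (n + 1) * M ^ n := by ring
                omega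
            _ ≤ (M + 1) ^ (n + 1) * (M + 1) := Nat.mul_le_mul_right _ ih
            _ = (M + 1) ^ (n + 1 + 1) := by ring
    have h5 := h4 M
    have h6 : (M + 1) * M ^ M = M ^ (M + 1) + M ^ M := by ring
    omega
  obtain ⟨d, hd⟩ := Nat.exists_eq_add_of_le hA
  rw [hd, pow_add, pow_add, pow_mul, pow_mul]
  calc (M ^ (M + 1)) ^ c * M ^ d * 2 ^ c = (2 * M ^ (M + 1)) ^ c * M ^ d := by
        rw [mul_pow]; ring
    _ ≤ ((M + 1) ^ (M + 1)) ^ c * (M + 1) ^ d :=
        Nat.mul_le_mul (Nat.pow_le_pow_left h3 _) (Nat.pow_le_pow_left (by omega) _)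

/-- the functions without a pair of zeros -/
def NoPair (Q : ℕ) {ι σ : Type} (A : Finset σ) (p q : σ → ι) (f : ι → Fin (Q + 1)) : Prop :=
  ∀ s ∈ A, ¬ (f (p s) = 0 ∧ f (q s) = 0)

open Classical in
/-- one more pair -/
theorem count_step (Q : ℕ) {ι σ : Type} [Fintype ι] [DecidableEq ι] [DecidableEq σ]
    (A : Finset σ) (p q : σ → ι) (s : σ)
    (h1 : ∀ s' ∈ A, p s' ≠ p s) (h2 : ∀ s' ∈ A, q s' ≠ p s) (h3 : ∀ s' ∈ A, p s' ≠ q s)
    (h4 : ∀ s' ∈ A, q s' ≠ q s) (h5 : p s ≠ q s) :
    (Finset.univ.filter (fun f : ι → Fin (Q + 1) => NoPair Q (insert s A) p q f)).card *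
        (Q + 1) ^ 2 =
      (Finset.univ.filter (fun f : ι → Fin (Q + 1) => NoPair Q A p q f)).card *
        ((Q + 1) ^ 2 - 1) := by
  set SA := Finset.univ.filter (fun f : ι → Fin (Q + 1) => NoPair Q A p q f) with hSA
  set Z := SA.filter (fun f => f (p s) = 0 ∧ f (q s) = 0) with hZ
  have e1 : Finset.univ.filter (fun f : ι → Fin (Q + 1) => NoPair Q (insert s A) p q f) =
      SA.filter (fun f => ¬ (f (p s) = 0 ∧ f (q s) = 0)) := by
    ext f
    rw [Finset.mem_filter, hSA, Finset.mem_filter, Finset.mem_filter]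
    simp only [Finset.mem_univ, true_and, NoPair, Finset.mem_insert, forall_eq_or_imp]
    exact and_comm
  have e2 : Z.card + (SA.filter (fun f => ¬ (f (p s) = 0 ∧ f (q s) = 0))).card = SA.card :=
    Finset.card_filter_add_card_filter_not _
  have e3 : (Z ×ˢ (Finset.univ : Finset (Fin (Q + 1) × Fin (Q + 1)))).card = SA.card := by
    refine Finset.card_nbij'
      (fun x => Function.update (Function.update x.1 (p s) x.2.1) (q s) x.2.2)
      (fun f => (Function.update (Function.update f (p s) 0) (q s) 0, (f (p s), f (q s))))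
      ?_ ?_ ?_ ?_
    · rintro ⟨f, a, b⟩ hf
      simp only [Finset.coe_product, Finset.coe_univ, Set.mem_prod, Finset.mem_coe, hZ, hSA,
        Finset.mem_filter, Finset.mem_univ, true_and, Set.mem_univ, and_true] at hf ⊢
      intro s' hs'
      rw [Function.update_of_ne (h3 s' hs'), Function.update_of_ne (h1 s' hs'),
        Function.update_of_ne (h4 s' hs'), Function.update_of_ne (h2 s' hs')]
      exact hf.1 s' hs'
    · intro f hf
      simp only [Finset.coe_product, Finset.coe_univ, Set.mem_prod, Finset.mem_coe, hZ, hSA,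
        Finset.mem_filter, Finset.mem_univ, true_and, Set.mem_univ, and_true] at hf ⊢
      refine ⟨fun s' hs' => ?_, ?_, ?_⟩
      · rw [Function.update_of_ne (h3 s' hs'), Function.update_of_ne (h1 s' hs'),
          Function.update_of_ne (h4 s' hs'), Function.update_of_ne (h2 s' hs')]
        exact hf s' hs'
      · rw [Function.update_of_ne h5, Function.update_self]
      · rw [Function.update_self]
    · rintro ⟨f, a, b⟩ hf
      simp only [Finset.coe_product, Finset.coe_univ, Set.mem_prod, Finset.mem_coe, hZ, hSA,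
        Finset.mem_filter, Finset.mem_univ, true_and, Set.mem_univ, and_true] at hf
      refine Prod.ext ?_ (Prod.ext ?_ ?_)
      · funext i
        simp only [Function.update_apply]
        by_cases hq : i = q s
        · rw [if_pos hq, hq, hf.2.2]
        · rw [if_neg hq]
          by_cases hp : i = p s
          · rw [if_pos hp, hp, hf.2.1]
          · rw [if_neg hp, if_neg hq, if_neg hp]
      · simp only [Function.update_of_ne h5, Function.update_self]
      · simp only [Function.update_self]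
    · intro f hf
      funext i
      simp only [Function.update_apply]
      by_cases hq : i = q s
      · rw [if_pos hq, hq]
      · rw [if_neg hq]
        by_cases hp : i = p s
        · rw [if_pos hp, hp]
        · rw [if_neg hp, if_neg hq, if_neg hp]
  rw [Finset.card_product, Finset.card_univ, Fintype.card_prod, Fintype.card_fin] at e3
  rw [e1]
  have h6 : 1 ≤ (Q + 1) ^ 2 := Nat.one_le_pow _ _ (by omega)
  obtain ⟨M, hM⟩ : ∃ M, (Q + 1) ^ 2 = M + 1 := ⟨(Q + 1) ^ 2 - 1, by omega⟩
  have e4 : Z.card * (M + 1) = SA.card := by rw [← hM, ← e3]; ring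
  rw [hM, Nat.add_sub_cancel]
  nlinarith [e2, e4]

open Classical in
theorem count_all (Q : ℕ) {ι σ : Type} [Fintype ι] [DecidableEq ι] [DecidableEq σ]
    (A : Finset σ) (p q : σ → ι)
    (hp : ∀ s ∈ A, ∀ s' ∈ A, p s = p s' → s = s') (hq : ∀ s ∈ A, ∀ s' ∈ A, q s = q s' → s = s')
    (hpq : ∀ s ∈ A, ∀ s' ∈ A, p s ≠ q s') :
    (Finset.univ.filter (fun f : ι → Fin (Q + 1) => NoPair Q A p q f)).card *
        ((Q + 1) ^ 2) ^ A.card =
      Fintype.card (ι → Fin (Q + 1)) * ((Q + 1) ^ 2 - 1) ^ A.card := by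
  induction A using Finset.induction_on with
  | empty =>
    have : Finset.univ.filter (fun f : ι → Fin (Q + 1) => NoPair Q (∅ : Finset σ) p q f) =
        Finset.univ := by
      ext f
      simp [NoPair]
    rw [this, Finset.card_univ]
    simp
  | insert s A hs ih =>
    have ih' := ih (fun a ha b hb => hp a (Finset.mem_insert_of_mem ha) b
      (Finset.mem_insert_of_mem hb)) (fun a ha b hb => hq a (Finset.mem_insert_of_mem ha) b
      (Finset.mem_insert_of_mem hb)) (fun a ha b hb => hpq a (Finset.mem_insert_of_mem ha) b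
      (Finset.mem_insert_of_mem hb))
    have h0 := Finset.mem_insert_self s A
    have hst := count_step Q A p q s
      (fun a ha h => hs (hp a (Finset.mem_insert_of_mem ha) s h0 h ▸ ha))
      (fun a ha h => hpq s h0 a (Finset.mem_insert_of_mem ha) h.symm)
      (fun a ha h => hpq a (Finset.mem_insert_of_mem ha) s h0 h)
      (fun a ha h => hs (hq a (Finset.mem_insert_of_mem ha) s h0 h ▸ ha))
      (hpq s h0 s h0)
    rw [Finset.card_insert_of_notMem hs]
    generalize (Q + 1) ^ 2 = N at *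
    rw [pow_succ', pow_succ', ← mul_assoc, hst, mul_right_comm, ih']
    ring

theorem count_pairs (Q : ℕ) {ι σ : Type} [Fintype ι] [DecidableEq ι] [DecidableEq σ]
    (A : Finset σ) (p q : σ → ι) (c : ℕ)
    (hp : ∀ s ∈ A, ∀ s' ∈ A, p s = p s' → s = s') (hq : ∀ s ∈ A, ∀ s' ∈ A, q s = q s' → s = s')
    (hpq : ∀ s ∈ A, ∀ s' ∈ A, p s ≠ q s') (hA : (Q + 1) ^ 2 * c ≤ A.card) (hQ : 1 ≤ Q) :
    (Finset.univ.filter (fun f : ι → Fin (Q + 1) =>
      ∀ s ∈ A, ¬ (f (p s) = 0 ∧ f (q s) = 0))).card * 2 ^ c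
      ≤ Fintype.card (ι → Fin (Q + 1)) := by
  classical
  have h1 := count_all Q A p q hp hq hpq
  have h2 : (Finset.univ.filter (fun f : ι → Fin (Q + 1) => NoPair Q A p q f)).card =
      (Finset.univ.filter (fun f : ι → Fin (Q + 1) =>
      ∀ s ∈ A, ¬ (f (p s) = 0 ∧ f (q s) = 0))).card := by
    congr 1
    ext f
    simp [NoPair]
  rw [h2] at h1
  obtain ⟨M, hM⟩ : ∃ M, (Q + 1) ^ 2 = M + 1 :=
    ⟨(Q + 1) ^ 2 - 1, by have := Nat.one_le_pow 2 (Q + 1) (by omega); omega⟩
  rw [hM, Nat.add_sub_cancel] at h1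
  rw [hM] at hA
  have h3 := pow_two_le M A.card c hA
  have h4 : 0 < (M + 1) ^ A.card := Nat.pow_pos (by omega)
  refine Nat.le_of_mul_le_mul_right (?_ : _ * (M + 1) ^ A.card ≤ _) h4
  calc _ = (Finset.univ.filter (fun f : ι → Fin (Q + 1) =>
          ∀ s ∈ A, ¬ (f (p s) = 0 ∧ f (q s) = 0))).card * (M + 1) ^ A.card * 2 ^ c := by ring
    _ = Fintype.card (ι → Fin (Q + 1)) * (M ^ A.card * 2 ^ c) := by rw [h1]; ring
    _ ≤ Fintype.card (ι → Fin (Q + 1)) * (M + 1) ^ A.card := Nat.mul_le_mul_left _ h3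

end Pool.Agent.Lib.Pf91712p
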