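import Pool.Agent.Lib.Pf91712p.Defs

/-!
The truth value of a coded instance as a decision tree over the oracle.
-/

set_option autoImplicit false
set_option maxHeartbeats 1000000

namespace Pool.Agent.Lib.Pf91712p

open Pool.Agent.Lib.Pa76659 (Str Lang Prog PO accepts inp DT SL accTree)
open Pool.Agent.Lib.Pa76659G (pr on1 emp FPO fst snd)

theorem dlist {V ι : Type} (T : ι → DT V Bool) (d : ℕ) (S : Set V) : ∀ l : List ι,
    (∀ i ∈ l, (T i).depth ≤ d) → (∀ i ∈ l, (T i).QIn S) → ∀ g : List Bool → Bool,
    ∃ T' : DT V Bool, T'.depth ≤ l.length * d ∧ T'.QIn S ∧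
      ∀ x, T'.eval x = g (l.map (fun i => (T i).eval x)) := by
  intro l
  induction l with
  | nil =>
      intro _ _ g
      exact ⟨DT.leaf (g []), by simp [DT.depth], trivial, fun x => rfl⟩
  | cons i l ih =>
      intro hd hq g
      have h1 := ih (fun j hj => hd j (List.mem_cons_of_mem _ hj))
        (fun j hj => hq j (List.mem_cons_of_mem _ hj))
      choose T' ha hb hc using fun b : Bool => h1 (fun s => g (b :: s))
      refine ⟨(T i).bind T', ?_, DT.QIn.bind hb (hq i List.mem_cons_self), fun x => ?_⟩
      · refine (DT.depth_bind T' (l.length * d) ha (T i)).trans ?_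
        have := hd i List.mem_cons_self
        rw [List.length_cons, Nat.succ_mul]
        omega
      · rw [DT.eval_bind, hc]
        rfl

theorem alt_congr (m : ℕ) : ∀ (t : ℕ) (b : Bool) (R R' : Str → Prop) (w0 : Str),
    (∀ w : Str, w.length = w0.length + t * m → (R w ↔ R' w)) →
    (Alt m t b R w0 ↔ Alt m t b R' w0)
  | 0, b, R, R', w0, h => by
      have h1 := h w0 (by simp)
      cases b <;> simpa [Alt] using h1
  | t + 1, true, R, R', w0, h => by
      simp only [Alt]
      apply exists_congr
      intro z
      apply and_congr_right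
      intro hz
      apply alt_congr m t
      intro w hw
      apply h
      rw [hw, List.length_append, hz]
      ring
  | t + 1, false, R, R', w0, h => by
      simp only [Alt]
      apply forall_congr'
      intro z
      apply imp_congr_right
      intro hz
      apply alt_congr m t
      intro w hw
      apply h
      rw [hw, List.length_append, hz]
      ring

theorem D_tree (y : Str) : ∃ T : DT Str Bool, T.depth ≤ 2 ^ ye y * Nat.sqrt y.length ∧
    T.QIn (SL (Nat.sqrt y.length)) ∧ ∀ O : Lang, (T.eval O = true ↔ D O y) := by
  classical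
  by_cases hg : yc y ≤ Nat.sqrt y.length
  · -- the list of all strings of length `ye y`
    let e : List (List.Vector Bool (ye y)) := Finset.univ.toList
    have hel : e.length = 2 ^ ye y := by
      simp [e, Finset.length_toList]
    let TT : List.Vector Bool (ye y) → DT Str Bool := fun w =>
      accTree (prg (yj y)) (inp (pr (yx y) (pr (ya y) w.1))) (yT y)
    have hlen : ∀ w : Str, w.length = ye y → (pr (yx y) (pr (ya y) w)).length = yc y := by
      intro w hw
      simp only [Pool.Agent.Lib.Pa76659G.pr_length, hw, yc]
      ring
    have hT : yc y + yT y = Nat.sqrt y.length := by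
      unfold yT; omega
    let mk : ∀ w : Str, w.length = ye y → List.Vector Bool (ye y) := fun w h => ⟨w, h⟩
    -- recover the matrix from the list of values
    let val : List Bool → Str → Bool := fun s w =>
      if hw : w.length = ye y then s.getD (e.idxOf (mk w hw)) false else false
    obtain ⟨T, h1, h2, h3⟩ := dlist TT (Nat.sqrt y.length) (SL (Nat.sqrt y.length)) e
      (fun w _ => by
        refine (Pool.Agent.Lib.Pa76659.accTree_depth _ _ _).trans ?_
        omega)
      (fun w _ => by
        refine (Pool.Agent.Lib.Pa76659.accTree_qin _ _ _ _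
          (Pool.Agent.Lib.Pa76659.inp_bdd _)).mono ?_
        intro v hv
        have hv' : v.length ≤ (pr (yx y) (pr (ya y) w.1)).length + yT y := hv
        rw [hlen _ w.2] at hv'
        show v.length ≤ _
        omega)
      (fun s => decide (Alt (yh y * lg (yx y)) (yt y) true (fun w => val s w = true) []))
    refine ⟨T, by rw [hel] at h1; exact h1, h2, fun O => ?_⟩
    rw [h3, decide_eq_true_eq, D, and_iff_right hg]
    apply alt_congr
    intro w hw
    have hw2 : w.length = ye y := by
      rw [hw, ye]; simp
    have hmem : mk w hw2 ∈ e := Finset.mem_toList.2 (Finset.mem_univ (mk w hw2))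
    have hidx : e.idxOf (mk w hw2) < e.length :=
      List.idxOf_lt_length_of_mem hmem
    have hv : val (e.map (fun i => (TT i).eval O)) w = (TT (mk w hw2)).eval O := by
      simp only [val, dif_pos hw2]
      rw [List.getD_eq_getElem _ _ (by rw [List.length_map]; exact hidx), List.getElem_map,
        List.getElem_idxOf]
    rw [hv]
    simp only [TT, mk, Pool.Agent.Lib.Pa76659.accTree_eval]
  · refine ⟨DT.leaf false, by simp [DT.depth], trivial, fun O => ?_⟩
    simp only [DT.eval, D]
    constructor
    · intro h; exact absurd h (by simp)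
    · intro h; exact absurd h.1 hg

theorem D_congr (y : Str) {O O' : Lang} (h : ∀ v : Str, v.length ≤ Nat.sqrt y.length → O v = O' v) :
    D O y ↔ D O' y := by
  obtain ⟨T, _, h2, h3⟩ := D_tree y
  rw [← h3 O, ← h3 O', DT.eval_congr (S := SL (Nat.sqrt y.length)) h h2]

end Pool.Agent.Lib.Pf91712p
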