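import Pool.Agent.Lib.Pf91712p.Cls
import Pool.Agent.Lib.Pf91712.Defs
import Pool.Agent.Lib.Pa76659G.Tab
import Pool.Agent.Lib.Pa76659.Sem

/-!
The coded instances, the groups of oracle bits and the parity constraints.
-/

set_option autoImplicit false

namespace Pool.Agent.Lib.Pf91712p

open Pool.Agent.Lib.Pa76659 (Str Lang Prog PO accepts inp)
open Pool.Agent.Lib.Pa76659G (pr on1 emp FPO fst snd)
open Pool.Agent.Lib.Pf91712 (unary)

instance : Nonempty Prog := ⟨Prog.skip⟩

/-- a numbering of the programs -/
noncomputable def prg : ℕ → Prog := (exists_surjective_nat Prog).choose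

theorem prg_surj (M : Prog) : ∃ j, prg j = M := (exists_surjective_nat Prog).choose_spec M

/-- the parts of a coded instance `y = ⟨x, ⟨a, 1^j 0 1^t 0 1^h 0 v⟩⟩` -/
def yx (y : Str) : Str := fst y
def ya (y : Str) : Str := fst (snd y)
def yj (y : Str) : ℕ := (unary (snd (snd y))).1
def yt (y : Str) : ℕ := (unary (unary (snd (snd y))).2).1
def yh (y : Str) : ℕ := (unary (unary (unary (snd (snd y))).2).2).1

/-- the total length of the quantified blocks of `y` -/
def ye (y : Str) : ℕ := yt y * (yh y * lg (yx y))

/-- the exponent of the size of the group of `y` -/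
def yn (y : Str) : ℕ := (yt y * yh y) * (yt y * yh y + 1) * lg (yx y)

/-- the length of the input of the machine of `y` -/
def yc (y : Str) : ℕ := 2 * (yx y).length + 2 * (ya y).length + 2 + ye y

/-- the time bound of the machine of `y` -/
def yT (y : Str) : ℕ := Nat.sqrt y.length - yc y

/-- the truth value of the coded instance `y` relative to `O` -/
def D (O : Lang) (y : Str) : Prop :=
  yc y ≤ Nat.sqrt y.length ∧
    Alt (yh y * lg (yx y)) (yt y) true
      (fun w => accepts O (prg (yj y)) (inp (pr (yx y) (pr (ya y) w))) (yT y) = true) []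

/-- the strings of the group of `y` are `GS y u`, `|u| = yn y` -/
def GS (y u : Str) : Str := true :: pr y u

/-- all the parity constraints -/
def Con (O : Lang) : Prop :=
  ∀ y : Str, Odd (Nat.card {u : Str // u.length = yn y ∧ O (GS y u) = true}) ↔ D O y

/-- the string of the relation of the instance `(x, k)` -/
def RS (x : Str) (k : ℕ) (w : Str) : Str := false :: pr x (pr (on1 k) w)

theorem GS_inj {y u y' u' : Str} (h : GS y u = GS y' u') : y = y' ∧ u = u' := by
  simp only [GS, List.cons.injEq, true_and] at h
  exact Pool.Agent.Lib.Pa76659G.pr_inj h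

theorem GS_length (y u : Str) : (GS y u).length = 2 * y.length + 2 + u.length := by
  simp only [GS, List.length_cons, Pool.Agent.Lib.Pa76659G.pr_length]
  omega

theorem RS_inj {x w w' : Str} {k : ℕ} (h : RS x k w = RS x k w') : w = w' := by
  simp only [RS, List.cons.injEq, true_and] at h
  exact (Pool.Agent.Lib.Pa76659G.pr_inj (Pool.Agent.Lib.Pa76659G.pr_inj h).2).2

theorem RS_length (x : Str) (k : ℕ) (w : Str) :
    (RS x k w).length = 2 * x.length + 2 * k + 3 + w.length := by
  simp only [RS, List.length_cons, Pool.Agent.Lib.Pa76659G.pr_length, on1, List.length_replicate]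
  omega

theorem RS_ne_GS (x : Str) (k : ℕ) (w y u : Str) : RS x k w ≠ GS y u := by
  simp [RS, GS]

end Pool.Agent.Lib.Pf91712p
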