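import Pool.Agent.Lib.Pf91712p.Fix

/-!
The limit of the construction.

PLAN. Start with an oracle with `Con` (`fix_spec` with `X := fun _ => false`). Enumerate `ι`
(`exists_surjective_nat`; the case `ι` empty is trivial), define by recursion conditions
`(N_i, O_i)` with `N_i < N_(i+1)` (enlarge `N1` if necessary, e.g. use `max N1 (N+1)`), `Con O_i`,
`O_(i+1) = O_i` below `N_i`, and: every `O` that agrees with `O_(i+1)` below `N_(i+1)` satisfies the
`i`-th requirement. `O v := O_(|v|+1) v`; `O` agrees with `O_i` below `N_i` for all `i`. `Con O` at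
`y`: take `i` with `N_i >` the lengths of the strings of the group of `y`; `D_congr`.
-/

set_option autoImplicit false
set_option maxHeartbeats 1000000

namespace Pool.Agent.Lib.Pf91712p

open Pool.Agent.Lib.Pa76659 (Str Lang)

namespace LimAux

/-- `Con` only needs to be checked on initial pieces -/
theorem con_of {O : Lang} (h : ∀ m : ℕ, ∃ O' : Lang, Con O' ∧ ∀ v : Str, v.length ≤ m → O v = O' v) :
    Con O := by
  intro y
  obtain ⟨O', hC, hO⟩ := h (2 * y.length + 2 + yn y)
  have h1 : D O y ↔ D O' y := by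
    apply D_congr
    intro v hv
    apply hO
    have := Nat.sqrt_le_self y.length
    omega
  rw [h1, ← hC y]
  have h2 : ∀ u : Str, (u.length = yn y ∧ O (GS y u) = true) ↔
      (u.length = yn y ∧ O' (GS y u) = true) := by
    intro u
    constructor
    · rintro ⟨h3, h4⟩
      refine ⟨h3, ?_⟩
      rw [← hO _ (by rw [GS_length]; omega)]
      exact h4
    · rintro ⟨h3, h4⟩
      refine ⟨h3, ?_⟩
      rw [hO _ (by rw [GS_length]; omega)]
      exact h4
  rw [Nat.card_congr (Equiv.subtypeEquivRight h2)]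

theorem exists_con : ∃ O : Lang, Con O := by
  obtain ⟨O, hO, _⟩ := fix_spec (fun _ => false) (fun y => List.replicate (yn y) false)
    (fun y => List.length_replicate)
  exact ⟨O, hO⟩

theorem glue (N : ℕ → ℕ) (Q : ℕ → Lang) (hN : ∀ i, N i + 1 ≤ N (i + 1))
    (hQ : ∀ i, ∀ v : Str, v.length < N i + 1 → Q (i + 1) v = Q i v) (i : ℕ) (v : Str)
    (hv : v.length < N i) : Q (v.length + 1) v = Q i v := by
  have hmono : ∀ a b, N a ≤ N (a + b) := by
    intro a b
    induction b with
    | zero => exact le_refl _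
    | succ b ih =>
      have := hN (a + b)
      rw [← add_assoc]
      omega
  have hge : ∀ a, a ≤ N a := by
    intro a
    induction a with
    | zero => exact Nat.zero_le _
    | succ a ih =>
      have := hN a
      omega
  have hst : ∀ a b, ∀ v : Str, v.length < N a + 1 → Q (a + b) v = Q a v := by
    intro a b v hv
    induction b with
    | zero => rfl
    | succ b ih =>
      rw [← add_assoc, hQ (a + b) v (by have := hmono a b; omega), ih]
  rcases le_total i (v.length + 1) with h | h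
  · obtain ⟨b, hb⟩ := Nat.exists_eq_add_of_le h
    rw [hb]
    exact hst i b v (by omega)
  · obtain ⟨b, hb⟩ := Nat.exists_eq_add_of_le h
    have h1 := hst (v.length + 1) b v (by have := hge (v.length + 1); omega)
    rw [← hb] at h1
    exact h1.symm

end LimAux

open LimAux

theorem limit {ι : Type} [Countable ι] (Req : ι → Lang → Prop)
    (dense : ∀ (i : ι) (N : ℕ) (O0 : Lang), Con O0 → ∃ (N1 : ℕ) (O1 : Lang), N ≤ N1 ∧ Con O1 ∧
      (∀ v : Str, v.length < N → O1 v = O0 v) ∧
      ∀ O : Lang, (∀ v : Str, v.length < N1 → O v = O1 v) → Req i O) :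
    ∃ O : Lang, Con O ∧ ∀ i, Req i O := by
  classical
  obtain ⟨Oi, hOi⟩ := exists_con
  rcases isEmpty_or_nonempty ι with hE | hE
  · exact ⟨Oi, hOi, fun i => (hE.false i).elim⟩
  obtain ⟨e, he⟩ := exists_surjective_nat ι
  choose! N1 O1 h1 h2 h3 h4 using dense
  let f : ℕ → {p : ℕ × Lang // Con p.2} := fun n => Nat.rec ⟨(0, Oi), hOi⟩
    (fun i p => ⟨(N1 (e i) (p.1.1 + 1) p.1.2, O1 (e i) (p.1.1 + 1) p.1.2),
      h2 (e i) (p.1.1 + 1) p.1.2 p.2⟩) n
  have hf : ∀ i, f (i + 1) = ⟨(N1 (e i) ((f i).1.1 + 1) (f i).1.2, O1 (e i) ((f i).1.1 + 1) (f i).1.2),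
      h2 (e i) ((f i).1.1 + 1) (f i).1.2 (f i).2⟩ := fun i => rfl
  have hN : ∀ i, (f i).1.1 + 1 ≤ (f (i + 1)).1.1 := fun i => h1 (e i) _ _ (f i).2
  have hQ : ∀ i, ∀ v : Str, v.length < (f i).1.1 + 1 → (f (i + 1)).1.2 v = (f i).1.2 v :=
    fun i => h3 (e i) _ _ (f i).2
  have hR : ∀ i, ∀ O : Lang, (∀ v : Str, v.length < (f (i + 1)).1.1 → O v = (f (i + 1)).1.2 v) →
      Req (e i) O := fun i => h4 (e i) _ _ (f i).2
  have hge : ∀ a, a ≤ (f a).1.1 := by
    intro a
    induction a with
    | zero => exact Nat.zero_le _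
    | succ a ih =>
      have := hN a
      omega
  have hg := glue (fun i => (f i).1.1) (fun i => (f i).1.2) hN hQ
  refine ⟨fun v => (f (v.length + 1)).1.2 v, ?_, ?_⟩
  · apply con_of
    intro m
    refine ⟨(f (m + 1)).1.2, (f (m + 1)).2, ?_⟩
    intro v hv
    exact hg (m + 1) v (by have := hge (m + 1); show v.length < (f (m + 1)).1.1; omega)
  · intro i
    obtain ⟨j, rfl⟩ := he i
    exact hR j _ fun v hv => hg (j + 1) v hv

end Pool.Agent.Lib.Pf91712p
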