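import Pool.Agent.Lib.Pf91712p.Defs
import Pool.Agent.Lib.Pa76659G.UoFP
import Pool.Agent.Lib.Pa76659G.Pair

/-!
The reduction is computable in polynomial time; the matrix of the model checking problem is decidable
in polynomial time with the oracle.

PLAN. `padR`: in the calculus `PolyC` (`Pa76659G.Basic`, `Comb`, `Pair`): `w ↦ w ++ on1 (q.eval |w|)`
(`Len.poly` / `hl.poly q`, append), pairing, cons; then `Uo.FPO_of_polyC`. `shift_PO`: the program
`push 0 false; query 0 0` followed by nothing: register `0` holds `v`; after `push 0 false` the query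
string is `false :: v`; the answer is pushed on register `0` (so its top bit is the answer):
`accepts = O (false :: v)`. Constant time.
-/

set_option autoImplicit false
set_option maxHeartbeats 1000000

namespace Pool.Agent.Lib.Pf91712p

open Pool.Agent.Lib.Pa76659 (Str Lang Prog PO accepts inp)
open Pool.Agent.Lib.Pa76659G (pr on1 emp FPO)

theorem padR (q : Polynomial ℕ) :
    (fun w : Str => true :: pr (w ++ on1 (q.eval w.length)) []) ∈ FPO emp := by
  have hx : Pa76659G.PC.PolyC (fun _ : Str => emp) (fun _ => True) [fun x : Str => x]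
      (fun x : Str => x) := Pa76659G.PC.PolyC.var (by simp)
  have h1 : Pa76659G.PC.PolyC (fun _ : Str => emp) (fun _ => True) [fun x : Str => x]
      (fun x : Str => on1 (q.eval x.length)) :=
    (Pa76659G.PC.PolyN.length hx).poly q
  exact Pa76659G.Uo.FPO_of_polyC
    (Pa76659G.PC.PolyC.cons true (Pa76659G.PC.PolyC.pr (hx.append h1) Pa76659G.PC.PolyC.nil))

theorem shift_PO (O : Lang) : (fun v : Str => O (false :: v)) ∈ PO O := by
  refine ⟨.seq (.push 0 false) (.query 0 0), 3, fun x => ?_⟩
  have h3 : (3 : Polynomial ℕ).eval x.length = 3 := by simp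
  have hr : Pa76659.runN O 3 ([Prog.seq (.push 0 false) (.query 0 0)], inp x) =
      ([], Function.update (Function.update (inp x) 0 (false :: inp x 0)) 0
        (O (Function.update (inp x) 0 (false :: inp x 0) 0) ::
          Function.update (inp x) 0 (false :: inp x 0) 0)) := rfl
  have h0 : inp x 0 = x := rfl
  rw [h3]
  refine ⟨?_, ?_⟩
  · rw [Pa76659.Halts, hr]
  · rw [accepts, hr]
    simp only [Function.update_self, h0, List.head?_cons]
    cases O (false :: x) <;> rfl

end Pool.Agent.Lib.Pf91712p
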