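import Pool.Agent.Lib.Pf91712p.DTree
import Pool.Agent.Lib.Pf91712p.PosA
import Pool.Agent.Lib.Pf91712p.PosB

/-!
If all parity constraints hold then every problem in `AW[P]` is the parity of a function in `#W[1]`.

PLAN. `L` is given by `t, h, π` (computable) and `B ∈ PO O`, say by the program `M = prg j` and the
polynomial `p`. Put `π' := adv j t h π`, `s := |pr x (π' k)|`, `E := q.eval s`,
`y := pr x (π' k) ++ on1 E = pr x (pr (π k) (on1 j ++ false :: (on1 (t k) ++ false :: (on1 (h k) ++
false :: on1 E))))`, so `yx y = x`, `ya y = π k`, `yj y = j`, `yt y = t k`, `yh y = h k`.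
`|x|, |π k|, t k, h k ≤ s`, `lg x ≤ |x| ≤ s`, so `yc y ≤ 4 s + 2 + s ^ 3 =: Y(s)`; take
`q := (Y + p ∘ Y) ^ 2`, then `sqrt |y| ≥ yc y + p.eval (yc y)`: the guard of `D O y` holds and
`yT y ≥ p.eval (yc y)`, where `yc y` is the length of the input `pr x (pr (π k) w)` for
`|w| = ye y`; the machine has halted after `p.eval (yc y)` steps, so the answer after `yT y` steps
is the same. `alt_congr` gives `D O y ↔ L x k`. With `R w := true :: pr (w ++ on1 (q.eval |w|)) []`
we have `R (pr x (π' k)) ++ u = GS y u`, `H k := (t k * h k) * (t k * h k + 1)`,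
`H k * lg x = yn y`; `F x k := Nat.card {u // |u| = H k * lg x ∧ O (R (pr x (π' k)) ++ u) = true}`.
-/

set_option autoImplicit false
set_option maxHeartbeats 1000000

namespace Pool.Agent.Lib.Pf91712p

open Pool.Agent.Lib.Pa76659 (Str Lang Prog PO accepts inp)
open Pool.Agent.Lib.Pa76659G (pr on1 emp FPO)

theorem unary_on1 (j : ℕ) (v : Str) :
    Pool.Agent.Lib.Pf91712.unary (on1 j ++ false :: v) = (j, v) := by
  induction j with
  | zero => simp [on1, Pool.Agent.Lib.Pf91712.unary]
  | succ j ih =>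
    have h1 : on1 (j + 1) ++ false :: v = true :: (on1 j ++ false :: v) := by
      simp [on1, List.replicate_succ]
    rw [h1, Pool.Agent.Lib.Pf91712.unary, ih]

theorem pr_app (a b c : Str) : pr a b ++ c = pr a (b ++ c) := by
  simp [pr, List.append_assoc]

theorem on1_length (n : ℕ) : (on1 n).length = n := by simp [on1]

/-- the coded instance -/
def yI (j : ℕ) (t h : ℕ → ℕ) (π : ℕ → Str) (x : Str) (k E : ℕ) : Str :=
  pr x (adv j t h π k) ++ on1 E

theorem yI_eq (j : ℕ) (t h : ℕ → ℕ) (π : ℕ → Str) (x : Str) (k E : ℕ) :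
    yI j t h π x k E = pr x (pr (π k) (on1 j ++ false :: (on1 (t k) ++ false ::
      (on1 (h k) ++ false :: on1 E)))) := by
  rw [yI, adv, pr_app, pr_app]
  simp [List.append_assoc]

section

variable (j : ℕ) (t h : ℕ → ℕ) (π : ℕ → Str) (x : Str) (k E : ℕ)

theorem yx_yI : yx (yI j t h π x k E) = x := by
  rw [yI_eq, yx, Pa76659G.fst, Pa76659G.un_pr]

theorem ya_yI : ya (yI j t h π x k E) = π k := by
  rw [yI_eq, ya, Pa76659G.snd, Pa76659G.un_pr, Pa76659G.fst, Pa76659G.un_pr]

theorem ss_yI : Pa76659G.snd (Pa76659G.snd (yI j t h π x k E)) =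
    on1 j ++ false :: (on1 (t k) ++ false :: (on1 (h k) ++ false :: on1 E)) := by
  rw [yI_eq, Pa76659G.snd, Pa76659G.snd, Pa76659G.un_pr, Pa76659G.un_pr]

theorem yj_yI : yj (yI j t h π x k E) = j := by
  rw [yj, ss_yI, unary_on1]

theorem yt_yI : yt (yI j t h π x k E) = t k := by
  rw [yt, ss_yI, unary_on1, unary_on1]

theorem yh_yI : yh (yI j t h π x k E) = h k := by
  rw [yh, ss_yI, unary_on1, unary_on1, unary_on1]

theorem yn_yI : yn (yI j t h π x k E) = (t k * h k) * (t k * h k + 1) * lg x := by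
  rw [yn, yt_yI, yh_yI, yx_yI]

theorem yc_yI : yc (yI j t h π x k E) =
    2 * x.length + 2 * (π k).length + 2 + t k * (h k * lg x) := by
  rw [yc, ye, yt_yI, yh_yI, yx_yI, ya_yI]

theorem length_adv : (adv j t h π k).length = 2 * (π k).length + 1 + (j + 1 + (t k + 1 +
    (h k + 1))) := by
  rw [adv, Pa76659G.pr_length]
  simp only [List.length_append, List.length_cons, on1_length, List.length_nil]
  omega

theorem length_s : (pr x (adv j t h π k)).length =
    2 * x.length + 1 + (2 * (π k).length + 1 + (j + 1 + (t k + 1 + (h k + 1)))) := by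
  rw [Pa76659G.pr_length, length_adv]

theorem length_yI : (yI j t h π x k E).length = (pr x (adv j t h π k)).length + E := by
  rw [yI, List.length_append, on1_length]

end

/-- the bound for the size of the input of the machine -/
def YB (s : ℕ) : ℕ := 4 * s + 2 + s ^ 3

theorem yc_le (j : ℕ) (t h : ℕ → ℕ) (π : ℕ → Str) (x : Str) (k E : ℕ) :
    yc (yI j t h π x k E) ≤ YB (pr x (adv j t h π k)).length := by
  rw [yc_yI]
  set s := (pr x (adv j t h π k)).length with hs
  have h1 := length_s j t h π x k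
  rw [← hs] at h1
  have h2 : lg x ≤ x.length := Nat.log_le_self 2 x.length
  have h3 : t k ≤ s := by omega
  have h4 : h k ≤ s := by omega
  have h5 : lg x ≤ s := by omega
  have h6 : t k * (h k * lg x) ≤ s * (s * s) := Nat.mul_le_mul h3 (Nat.mul_le_mul h4 h5)
  have h7 : s * (s * s) = s ^ 3 := by ring
  rw [YB]
  omega

/-- the polynomial of the padding -/
noncomputable def QP (p : Polynomial ℕ) : Polynomial ℕ :=
  ((4 * Polynomial.X + 2 + Polynomial.X ^ 3) +
    p.comp (4 * Polynomial.X + 2 + Polynomial.X ^ 3)) ^ 2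

theorem QP_eval (p : Polynomial ℕ) (s : ℕ) :
    (QP p).eval s = (YB s + p.eval (YB s)) * (YB s + p.eval (YB s)) := by
  have h1 : (4 * Polynomial.X + 2 + Polynomial.X ^ 3 : Polynomial ℕ).eval s = YB s := by
    simp [YB]
  rw [QP, Polynomial.eval_pow, Polynomial.eval_add, Polynomial.eval_comp, h1, sq]

theorem guard (p : Polynomial ℕ) (j : ℕ) (t h : ℕ → ℕ) (π : ℕ → Str) (x : Str) (k : ℕ) :
    yc (yI j t h π x k ((QP p).eval (pr x (adv j t h π k)).length)) +
      p.eval (yc (yI j t h π x k ((QP p).eval (pr x (adv j t h π k)).length))) ≤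
    Nat.sqrt (yI j t h π x k ((QP p).eval (pr x (adv j t h π k)).length)).length := by
  have h1 := yc_le j t h π x k ((QP p).eval (pr x (adv j t h π k)).length)
  have h2 := Pa76659.poly_mono p h1
  have h3 : YB (pr x (adv j t h π k)).length + p.eval (YB (pr x (adv j t h π k)).length) ≤
      Nat.sqrt (yI j t h π x k ((QP p).eval (pr x (adv j t h π k)).length)).length := by
    rw [Nat.le_sqrt, length_yI, QP_eval]
    exact Nat.le_add_left _ _
  omega

theorem positive (O : Lang) (hO : Con O) (L : Str → ℕ → Prop) (hL : L ∈ AWP O) :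
    ∃ F ∈ SharpW1 O, ∀ x k, L x k ↔ Odd (F x k) := by
  obtain ⟨t, h, π, B, ht, hh, hπ, ⟨M, p, hB⟩, hLB⟩ := hL
  obtain ⟨j, hj⟩ := prg_surj M
  refine ⟨_, ⟨fun k => (t k * h k) * (t k * h k + 1), adv j t h π, _, computable_H ht hh,
    computable_adv j ht hh hπ, padR (QP p), fun x k => rfl⟩, fun x k => ?_⟩
  set E := (QP p).eval (pr x (adv j t h π k)).length with hE
  have hGS : ∀ u : Str, (true :: pr (pr x (adv j t h π k) ++ on1 E) []) ++ u =
      GS (yI j t h π x k E) u := by
    intro u
    rw [List.cons_append, pr_app, List.nil_append, GS, yI]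
  have h1 := hO (yI j t h π x k E)
  rw [yn_yI] at h1
  simp only [hGS]
  rw [h1, hLB, D, yh_yI, yt_yI, yx_yI, ya_yI, yj_yI, hj, AltProb]
  have hg := guard p j t h π x k
  rw [← hE] at hg
  have h2 : yc (yI j t h π x k E) ≤ Nat.sqrt (yI j t h π x k E).length :=
    le_trans (Nat.le_add_right _ _) hg
  rw [and_iff_right h2]
  refine alt_congr _ _ _ _ _ _ fun w hw => ?_
  rw [List.length_nil, zero_add] at hw
  obtain ⟨b1, b2⟩ := hB (pr x (pr (π k) w))
  have h3 : (pr x (pr (π k) w)).length = yc (yI j t h π x k E) := by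
    rw [Pa76659G.pr_length, Pa76659G.pr_length, hw, yc_yI]
    omega
  rw [h3] at b1 b2
  have h4 : p.eval (yc (yI j t h π x k E)) ≤ yT (yI j t h π x k E) := by
    rw [yT]
    omega
  rw [(Pa76659.halts_mono b1 h4).2, b2]

end Pool.Agent.Lib.Pf91712p
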