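import Pool.Agent.Lib.Pf91712p.Stage
import Pool.Agent.Lib.Pf91712p.Lim
import Pool.Agent.Lib.Pf91712p.Pos

/-!
The final theorem.
-/

set_option autoImplicit false
set_option maxHeartbeats 1000000

namespace Pool.Agent.Lib.Pf91712p

open Pool.Agent.Lib.Pa76659 (Str Lang Prog PO accepts inp Halts)
open Pool.Agent.Lib.Pa76659G (pr on1 emp FPO)

theorem final : ∃ O : Lang, (∀ L ∈ AWP O, ∃ F ∈ SharpW1 O, ∀ x k, L x k ↔ Odd (F x k)) ∧
    (∀ t, SigmaRel O t ∈ AltClass O t) ∧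
    ∀ (t : ℕ) (B : Lang), B ∈ PO O → ∃ k0 : ℕ, ∀ k ≥ k0, ∀ (a : Str) (b : ℕ),
      ∃ x : Str, ¬ (SigmaRel O (t + 1) x k ↔
        Alt (b * lg x) t true (fun w => B (pr x (pr a w)) = true) []) := by
  classical
  choose k0 hk0 using stage
  let ι : Type := ℕ × Polynomial ℕ × Prog × Str × ℕ × ℕ
  obtain ⟨O, hO, hR⟩ := limit (ι := ι) (fun i O => k0 i.1 i.2.1 ≤ i.2.2.2.2.2 →
    ∃ x : Str, ¬ (SigmaRel O (i.1 + 1) x i.2.2.2.2.2 ↔
      MS i.1 i.2.2.1 i.2.1 i.2.2.2.1 i.2.2.2.2.1 x O)) (by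
    rintro ⟨t, p, M, a, b, k⟩ N O0 h0
    by_cases hk : k0 t p ≤ k
    · obtain ⟨N1, O1, h1, h2, h3, h4⟩ := hk0 t p k hk M a b N O0 h0
      exact ⟨N1, O1, h1, h2, h3, fun O hO _ => h4 O hO⟩
    · exact ⟨N, O0, le_rfl, h0, fun _ _ => rfl, fun _ _ h => absurd h hk⟩)
  refine ⟨O, fun L hL => positive O hO L hL, fun t => ⟨fun k => k, on1, fun v => O (false :: v),
    Computable.id, computable_on1, shift_PO O, fun x k => Iff.rfl⟩, fun t B hB => ?_⟩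
  obtain ⟨M, p, hM⟩ := hB
  refine ⟨k0 t p, fun k hk a b => ?_⟩
  obtain ⟨x, hx⟩ := hR (t, p, M, a, b, k) hk
  refine ⟨x, fun h => hx (h.trans ?_)⟩
  unfold MS
  have e : (fun w : Str => B (pr x (pr a w)) = true) = fun w : Str =>
      accepts O M (inp (pr x (pr a w))) (p.eval (pr x (pr a w)).length) = true := by
    funext w
    rw [(hM _).2]
  rw [e]

end Pool.Agent.Lib.Pf91712p
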