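import Pool.Agent.Lib.Pf91712p.DTree

/-!
Completing an oracle so that all parity constraints hold: one free string `GS y (pos y)` in every
group.

PLAN. `exists_fix`: iterate `Φ` from an arbitrary oracle, `O v := (Φ^[|v|+1] _) v`; by induction
`Φ^[i] _ v` is constant for `i > |v|`. `fix_spec`: rule `Φ O v :=` if `v = GS y (pos y)` for some `y`
(unique, `GS_inj`), then the bit which makes the parity of the group of `y` right (the other strings
of the group have the values `X`, the parity wanted is `D O y`; `D O y` depends on `O` only at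
strings of length `≤ sqrt |y| < |v|`, `D_congr`), else `X v`. (1) `Con O`: split the count of the
group of `y` into `pos y` and the rest. (2) by definition. (3) strong induction on `|v|`: for
`v = GS y (pos y)` the other strings of the group have the same length `< n`, so they agree with
`O0`, `D O y ↔ D O0 y` by the induction hypothesis, and the constraints for `O` and `O0` force the
same last bit. The set `{u | |u| = yn y}` is finite (`List.Vector`).
-/

set_option autoImplicit false
set_option maxHeartbeats 1000000

namespace Pool.Agent.Lib.Pf91712p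

open Pool.Agent.Lib.Pa76659 (Str Lang Prog PO accepts inp DT SL accTree)
open Pool.Agent.Lib.Pa76659G (pr on1 emp FPO fst snd)

theorem exists_fix (Φ : Lang → Lang)
    (h : ∀ (O O' : Lang) (v : Str), (∀ w : Str, w.length < v.length → O w = O' w) →
      Φ O v = Φ O' v) : ∃ O : Lang, ∀ v, O v = Φ O v := by
  have key : ∀ (n : ℕ) (v : Str), v.length < n → ∀ i, v.length < i →
      (Φ^[i] (fun _ => false)) v = (Φ^[v.length + 1] (fun _ => false)) v := by
    intro n
    induction n with
    | zero =>
      intro v hv
      exact absurd hv (Nat.not_lt_zero _)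
    | succ n ih =>
      intro v hv i hi
      obtain ⟨j, rfl⟩ : ∃ j, i = j + 1 := ⟨i - 1, by omega⟩
      rw [Function.iterate_succ_apply', Function.iterate_succ_apply']
      refine h _ _ v fun w hw => ?_
      rw [ih w (by omega) j (by omega), ih w (by omega) v.length hw]
  refine ⟨fun v => (Φ^[v.length + 1] (fun _ => false)) v, fun v => ?_⟩
  change (Φ^[v.length + 1] (fun _ => false)) v = _
  rw [Function.iterate_succ_apply']
  exact h _ _ v fun w hw => key (w.length + 1) w (Nat.lt_succ_self _) v.length hw

namespace FixAux

/-- the number of strings of the group of `y` in the language, except for `u0` -/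
noncomputable def cn (P : Lang) (y u0 : Str) : ℕ :=
  Set.ncard {u : Str | u.length = yn y ∧ u ≠ u0 ∧ P (GS y u) = true}

theorem cn_congr {P P' : Lang} {y u0 : Str}
    (h : ∀ u : Str, u.length = yn y → u ≠ u0 → P (GS y u) = P' (GS y u)) :
    cn P y u0 = cn P' y u0 := by
  unfold cn
  congr 1
  ext u
  constructor
  · rintro ⟨h1, h2, h3⟩
    exact ⟨h1, h2, by rw [← h u h1 h2]; exact h3⟩
  · rintro ⟨h1, h2, h3⟩
    exact ⟨h1, h2, by rw [h u h1 h2]; exact h3⟩

theorem card_split (P : Lang) (y u0 : Str) (hu0 : u0.length = yn y) :
    Nat.card {u : Str // u.length = yn y ∧ P (GS y u) = true} =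
      cn P y u0 + if P (GS y u0) = true then 1 else 0 := by
  have hfin : ({u : Str | u.length = yn y ∧ u ≠ u0 ∧ P (GS y u) = true}).Finite :=
    (List.finite_length_eq Bool (yn y)).subset fun u hu => hu.1
  have h1 : Nat.card {u : Str // u.length = yn y ∧ P (GS y u) = true} =
      Set.ncard {u : Str | u.length = yn y ∧ P (GS y u) = true} :=
    Nat.card_coe_set_eq _
  rw [h1]
  unfold cn
  by_cases h : P (GS y u0) = true
  · rw [if_pos h]
    have h2 : {u : Str | u.length = yn y ∧ P (GS y u) = true} =
        insert u0 {u : Str | u.length = yn y ∧ u ≠ u0 ∧ P (GS y u) = true} := by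
      ext u
      constructor
      · rintro ⟨a1, a2⟩
        by_cases hu : u = u0
        · exact Or.inl hu
        · exact Or.inr ⟨a1, hu, a2⟩
      · rintro (rfl | ⟨a1, _, a2⟩)
        · exact ⟨hu0, h⟩
        · exact ⟨a1, a2⟩
    rw [h2, Set.ncard_insert_of_notMem (fun hu => hu.2.1 rfl) hfin]
  · rw [if_neg h, Nat.add_zero]
    congr 1
    ext u
    constructor
    · rintro ⟨a1, a2⟩
      refine ⟨a1, ?_, a2⟩
      rintro rfl
      exact h a2
    · rintro ⟨a1, _, a2⟩
      exact ⟨a1, a2⟩

open Classical in
/-- the rule -/
noncomputable def Rule (X : Lang) (pos : Str → Str) (O : Lang) : Lang := fun v =>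
  if h : ∃ y, v = GS y (pos y) then
    (if (Odd (cn X h.choose (pos h.choose)) ↔ D O h.choose) then false else true)
  else X v

open Classical in
theorem rule_special (X : Lang) (pos : Str → Str) (O : Lang) (y : Str) :
    (Odd (cn X y (pos y) + if Rule X pos O (GS y (pos y)) = true then 1 else 0) ↔ D O y) := by
  have hex : ∃ y', GS y (pos y) = GS y' (pos y') := ⟨y, rfl⟩
  have hch : hex.choose = y := (GS_inj hex.choose_spec).1.symm
  have h1 : Rule X pos O (GS y (pos y)) =
      (if (Odd (cn X hex.choose (pos hex.choose)) ↔ D O hex.choose) then false else true) := by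
    unfold Rule
    rw [dif_pos hex]
  rw [h1, hch]
  by_cases h : Odd (cn X y (pos y)) ↔ D O y
  · rw [if_pos h, if_neg (by simp), Nat.add_zero]
    exact h
  · rw [if_neg h, if_pos rfl, Nat.odd_add_one]
    tauto

theorem rule_other (X : Lang) (pos : Str → Str) (O : Lang) (v : Str)
    (h : ∀ y, v ≠ GS y (pos y)) : Rule X pos O v = X v := by
  unfold Rule
  rw [dif_neg]
  rintro ⟨y, hy⟩
  exact h y hy

theorem sqrt_lt (y u : Str) : Nat.sqrt y.length < (GS y u).length := by
  rw [GS_length]
  have := Nat.sqrt_le_self y.length
  omega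

theorem rule_local (X : Lang) (pos : Str → Str) (O O' : Lang) (v : Str)
    (h : ∀ w : Str, w.length < v.length → O w = O' w) : Rule X pos O v = Rule X pos O' v := by
  by_cases hv : ∃ y, v = GS y (pos y)
  · unfold Rule
    rw [dif_pos hv, dif_pos hv]
    have h1 : D O hv.choose ↔ D O' hv.choose := by
      refine D_congr _ fun w hw => h w (hw.trans_lt ?_)
      have h2 := sqrt_lt hv.choose (pos hv.choose)
      rwa [← hv.choose_spec] at h2
    have h3 : (Odd (cn X hv.choose (pos hv.choose)) ↔ D O hv.choose) ↔
        (Odd (cn X hv.choose (pos hv.choose)) ↔ D O' hv.choose) := by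
      rw [h1]
    by_cases h4 : Odd (cn X hv.choose (pos hv.choose)) ↔ D O hv.choose
    · rw [if_pos h4, if_pos (h3.1 h4)]
    · rw [if_neg h4, if_neg fun h5 => h4 (h3.2 h5)]
  · rw [rule_other X pos O v fun y hy => hv ⟨y, hy⟩, rule_other X pos O' v fun y hy => hv ⟨y, hy⟩]

theorem bool_eq {c : ℕ} {a b : Bool}
    (h : Odd (c + if a = true then 1 else 0) ↔ Odd (c + if b = true then 1 else 0)) : a = b := by
  cases a <;> cases b
  · rfl
  · rw [if_neg (by simp), if_pos rfl, Nat.add_zero, Nat.odd_add_one] at h
    tauto
  · rw [if_pos rfl, if_neg (by simp), Nat.add_zero, Nat.odd_add_one] at h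
    tauto
  · rfl

end FixAux

open FixAux

theorem fix_spec (X : Lang) (pos : Str → Str) (hpos : ∀ y, (pos y).length = yn y) :
    ∃ O : Lang, Con O ∧ (∀ v, (∀ y, v ≠ GS y (pos y)) → O v = X v) ∧
      ∀ (n : ℕ) (O0 : Lang), Con O0 → (∀ v : Str, v.length < n → X v = O0 v) →
        ∀ v : Str, v.length < n → O v = O0 v := by
  obtain ⟨O, hO⟩ := exists_fix (Rule X pos) (rule_local X pos)
  have hother : ∀ v, (∀ y, v ≠ GS y (pos y)) → O v = X v := fun v hv => by
    rw [hO v]
    exact rule_other X pos O v hv
  have hne : ∀ (y u : Str), u ≠ pos y → ∀ y', GS y u ≠ GS y' (pos y') := by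
    intro y u hu y' h
    obtain ⟨rfl, h2⟩ := GS_inj h
    exact hu h2
  have hsp : ∀ y, (Odd (cn X y (pos y) + if O (GS y (pos y)) = true then 1 else 0) ↔ D O y) := by
    intro y
    rw [hO (GS y (pos y))]
    exact rule_special X pos O y
  refine ⟨O, ?_, hother, ?_⟩
  · intro y
    rw [card_split O y (pos y) (hpos y), cn_congr fun u _ hu => hother (GS y u) (hne y u hu)]
    exact hsp y
  · intro n O0 hO0 hX
    have key : ∀ (k : ℕ) (v : Str), v.length < k → v.length < n → O v = O0 v := by
      intro k
      induction k with
      | zero =>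
        intro v hv
        exact absurd hv (Nat.not_lt_zero _)
      | succ k ih =>
        intro v hv hvn
        by_cases hs : ∃ y, v = GS y (pos y)
        · obtain ⟨y, rfl⟩ := hs
          have h1 : D O y ↔ D O0 y := D_congr y fun w hw => by
            have h2 := hw.trans_lt (sqrt_lt y (pos y))
            exact ih w (by omega) (by omega)
          have h2 := hO0 y
          rw [card_split O0 y (pos y) (hpos y)] at h2
          have h3 : cn O0 y (pos y) = cn X y (pos y) := cn_congr fun u hu _ => by
            refine (hX (GS y u) ?_).symm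
            rw [GS_length] at hvn ⊢
            rw [hu, ← hpos y]
            exact hvn
          rw [h3] at h2
          exact bool_eq ((hsp y).trans (h1.trans h2.symm))
        · rw [hother v fun y hy => hs ⟨y, hy⟩]
          exact hX v hvn
    exact fun v hv => key (v.length + 1) v (Nat.lt_succ_self _) hv

end Pool.Agent.Lib.Pf91712p
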