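import Pool.Agent.Lib.Pf91712p.Cnt

/-!
Random restrictions which keep a zero in every family `A c`, and in every family `A' c` a variable that
is alive together with its block.

PLAN: copy the proof of `Hier.exists_good` (file `Pa76659/Hier.lean`) with a third kind of bad sets `B3`
(index `κ'`), counted by `count_pairs` (file `Cnt`, take it as given) with `ι := SE`,
`p v := ⟨inl v, _⟩`, `q v := ⟨inr (β v), _⟩`; all three sums are at most `N / 4`.
-/

set_option autoImplicit false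
set_option maxHeartbeats 4000000

namespace Pool.Agent.Lib.Pf91712p

open Pool.Agent.Lib.Pa76659 Pool.Agent.Lib.Pa76659.Switch Pool.Agent.Lib.Pa76659.Hier

theorem exists_good2 {V B : Type} [DecidableEq V] [DecidableEq B] (β : V → B) (t Q a r s : ℕ)
    (hQ : 8 * t + 8 ≤ Q) (hs : a + 2 ≤ s) (SE : Finset (V ⊕ B)) {ι κ κ' : Type} [Fintype ι]
    [Fintype κ] [Fintype κ'] (hι : Fintype.card ι ≤ 2 ^ a) (hκ : Fintype.card κ ≤ 2 ^ r)
    (hκ' : Fintype.card κ' ≤ 2 ^ r)
    (F : ι → List (List (V × Bool)))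
    (hF : ∀ i, ∀ T ∈ F i, T.length ≤ t ∧ (T.map Prod.fst).Nodup)
    (A : κ → Finset (V ⊕ B)) (hA : ∀ c, A c ⊆ SE)
    (hA2 : ∀ c, (Q + 1) * (r + 2) ≤ (A c).card)
    (A' : κ' → Finset V) (hβ : ∀ c, ∀ v ∈ A' c, ∀ v' ∈ A' c, β v = β v' → v = v')
    (hA' : ∀ c, ∀ v ∈ A' c, Sum.inl v ∈ SE ∧ Sum.inr (β v) ∈ SE)
    (hA'2 : ∀ c, (Q + 1) ^ 2 * (r + 2) ≤ (A' c).card) :
    ∃ ρ : V ⊕ B → ℕ, (∀ i, ¬ Hard β (F i) ρ (fun _ => none) s) ∧ (∀ c, ∃ e ∈ A c, ρ e = 0) ∧
      ∀ c, ∃ v ∈ A' c, ρ (Sum.inl v) = 0 ∧ ρ (Sum.inr (β v)) = 0 := by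
  classical
  by_contra hcon
  push Not at hcon
  set N := Fintype.card (SE → Fin (Q + 1)) with hN
  have hN0 : 0 < N := Fintype.card_pos
  let A1 : κ → Finset SE := fun c => Finset.univ.filter (fun e => e.1 ∈ A c)
  have hA1 : ∀ c, (A1 c).card = (A c).card := by
    intro c
    apply Finset.card_bij (fun e _ => e.1)
    · intro e he
      exact (Finset.mem_filter.1 he).2
    · intro e _ e' _ h
      exact Subtype.ext h
    · intro e he
      exact ⟨⟨e, hA c he⟩, by simp [A1, he], rfl⟩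
  let p : ∀ c : κ', {v // v ∈ A' c} → SE := fun c v => ⟨Sum.inl v.1, (hA' c v.1 v.2).1⟩
  let q : ∀ c : κ', {v // v ∈ A' c} → SE := fun c v => ⟨Sum.inr (β v.1), (hA' c v.1 v.2).2⟩
  let B1 : ι → Finset (SE → Fin (Q + 1)) := fun i => Finset.univ.filter (fun f =>
      Hard β (F i) (ext SE f) (fun _ => none) s)
  let B2 : κ → Finset (SE → Fin (Q + 1)) := fun c => Finset.univ.filter (fun f =>
      ∀ e ∈ A1 c, f e ≠ 0)
  let B3 : κ' → Finset (SE → Fin (Q + 1)) := fun c => Finset.univ.filter (fun f =>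
      ∀ v ∈ (Finset.univ : Finset {v // v ∈ A' c}), ¬ (f (p c v) = 0 ∧ f (q c v) = 0))
  have h1 : ∀ i, (B1 i).card * 2 ^ (a + 2) ≤ N := by
    intro i
    have h := hard_count β t Q hQ SE (F i) (hF i) s
    have h' : 2 ^ (a + 2) ≤ 2 ^ s := Nat.pow_le_pow_right (by norm_num) hs
    calc (B1 i).card * 2 ^ (a + 2) ≤ (B1 i).card * 2 ^ s := Nat.mul_le_mul_left _ h'
      _ ≤ N := by convert h using 1
  have h2 : ∀ c, (B2 c).card * 2 ^ (r + 2) ≤ N := by
    intro c
    have h := count_nonzero Q (A1 c) (r + 2) (by rw [hA1]; exact hA2 c) (by omega)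
    convert h using 1
  have h2' : ∀ c, (B3 c).card * 2 ^ (r + 2) ≤ N := by
    intro c
    have h := count_pairs Q (Finset.univ : Finset {v // v ∈ A' c}) (p c) (q c) (r + 2)
      (fun v _ v' _ e => Subtype.ext (Sum.inl.inj (congrArg Subtype.val e)))
      (fun v _ v' _ e => Subtype.ext (hβ c v.1 v.2 v'.1 v'.2
        (Sum.inr.inj (congrArg Subtype.val e))))
      (fun v _ v' _ e => Sum.inl_ne_inr (congrArg Subtype.val e))
      (by rw [Finset.card_univ, Fintype.card_coe]; exact hA'2 c) (by omega)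
    convert h
  have h3 : (Finset.univ : Finset (SE → Fin (Q + 1))) ⊆
      (Finset.univ.biUnion B1) ∪ (Finset.univ.biUnion B2) ∪ (Finset.univ.biUnion B3) := by
    intro f _
    by_contra hf
    simp only [Finset.mem_union, Finset.mem_biUnion, Finset.mem_univ, true_and, not_or,
      not_exists] at hf
    obtain ⟨⟨hf1, hf2⟩, hf3⟩ := hf
    obtain ⟨c, hc⟩ := hcon (ext SE f) (fun i hi => hf1 i (by simp [B1, hi])) (by
      intro c
      by_contra hc
      push Not at hc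
      apply hf2 c
      simp only [B2, Finset.mem_filter, Finset.mem_univ, true_and]
      intro e he h0
      have h4 := hc e.1 (Finset.mem_filter.1 he).2
      rw [ext_mem SE f e.2] at h4
      apply h4
      have : f ⟨e.1, e.2⟩ = 0 := h0
      rw [this]
      rfl)
    apply hf3 c
    simp only [B3, Finset.mem_filter, Finset.mem_univ, true_and]
    intro v _ hv
    have h4 := hc v.1 v.2
    rw [ext_mem SE f (hA' c v.1 v.2).1, ext_mem SE f (hA' c v.1 v.2).2] at h4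
    have e1 : f ⟨Sum.inl v.1, (hA' c v.1 v.2).1⟩ = 0 := hv.1
    have e2 : f ⟨Sum.inr (β v.1), (hA' c v.1 v.2).2⟩ = 0 := hv.2
    rw [e1, e2] at h4
    exact h4 rfl rfl
  have h4 := Finset.card_le_card h3
  rw [Finset.card_univ] at h4
  have h5 : N ≤ ∑ i, (B1 i).card + ∑ c, (B2 c).card + ∑ c, (B3 c).card :=
    h4.trans ((Finset.card_union_le _ _).trans
      (Nat.add_le_add ((Finset.card_union_le _ _).trans
        (Nat.add_le_add Finset.card_biUnion_le Finset.card_biUnion_le)) Finset.card_biUnion_le))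
  have h6 : (∑ i, (B1 i).card) * 4 ≤ N := by
    have h7 : (∑ i, (B1 i).card) * 2 ^ (a + 2) ≤ 2 ^ a * N := by
      rw [Finset.sum_mul]
      calc ∑ i, (B1 i).card * 2 ^ (a + 2) ≤ ∑ _i : ι, N := Finset.sum_le_sum (fun i _ => h1 i)
        _ = Fintype.card ι * N := by simp
        _ ≤ 2 ^ a * N := Nat.mul_le_mul_right _ hι
    have h8 : 2 ^ a * ((∑ i, (B1 i).card) * 4) ≤ 2 ^ a * N := by
      calc 2 ^ a * ((∑ i, (B1 i).card) * 4) = (∑ i, (B1 i).card) * 2 ^ (a + 2) := by ring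
        _ ≤ _ := h7
    exact Nat.le_of_mul_le_mul_left h8 (by positivity)
  have h9 : (∑ c, (B2 c).card) * 4 ≤ N := by
    have h7 : (∑ c, (B2 c).card) * 2 ^ (r + 2) ≤ 2 ^ r * N := by
      rw [Finset.sum_mul]
      calc ∑ c, (B2 c).card * 2 ^ (r + 2) ≤ ∑ _c : κ, N := Finset.sum_le_sum (fun i _ => h2 i)
        _ = Fintype.card κ * N := by simp
        _ ≤ 2 ^ r * N := Nat.mul_le_mul_right _ hκ
    have h8 : 2 ^ r * ((∑ c, (B2 c).card) * 4) ≤ 2 ^ r * N := by
      calc 2 ^ r * ((∑ c, (B2 c).card) * 4) = (∑ c, (B2 c).card) * 2 ^ (r + 2) := by ring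
        _ ≤ _ := h7
    exact Nat.le_of_mul_le_mul_left h8 (by positivity)
  have h10 : (∑ c, (B3 c).card) * 4 ≤ N := by
    have h7 : (∑ c, (B3 c).card) * 2 ^ (r + 2) ≤ 2 ^ r * N := by
      rw [Finset.sum_mul]
      calc ∑ c, (B3 c).card * 2 ^ (r + 2) ≤ ∑ _c : κ', N := Finset.sum_le_sum (fun i _ => h2' i)
        _ = Fintype.card κ' * N := by simp
        _ ≤ 2 ^ r * N := Nat.mul_le_mul_right _ hκ'
    have h8 : 2 ^ r * ((∑ c, (B3 c).card) * 4) ≤ 2 ^ r * N := by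
      calc 2 ^ r * ((∑ c, (B3 c).card) * 4) = (∑ c, (B3 c).card) * 2 ^ (r + 2) := by ring
        _ ≤ _ := h7
    exact Nat.le_of_mul_le_mul_left h8 (by positivity)
  omega

end Pool.Agent.Lib.Pf91712p
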