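import Pool.Agent.Lib.Pf91712p.Fix

/-!
Inlining the small groups: at a stage with frontier `n` all strings of length `< n` are fixed, the
stage strings `St` and the strings of the large groups (`σ < yn y`) are free, in a small group only
the string `GS y (false ... false)` may be true.

PLAN. Prove by induction on `j`: for every `v` with `|v| < n ^ (2 ^ j)` and `|v| ≤ n ^ c` there is a
tree of depth `≤ P ^ j` as required. `|v| < n`: `DT.leaf (O0 v)` (this is the case `j = 0`).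
Otherwise: `v ∈ St`: `DT.node v (leaf false) (leaf true)`. `v` not of the form `GS y u` with
`|u| = yn y`, and not in `St`: `leaf false`. `v = GS y u`, `σ < yn y`: `node v`. `v = GS y u`,
`yn y ≤ σ`, `u ≠ replicate _ false`: `leaf false`. `v = GS y (replicate (yn y) false)`, `yn y ≤ σ`: in
the group of `y` only this string can be true, so by `Con O` we have `O v = true ↔ D O y`; take the
tree of `D_tree y`, its queries have length `≤ sqrt |y| < n ^ (2 ^ (j-1))` as `|y| < |v|`,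
substitute the trees of the induction hypothesis (`DT.subst`, `DT.depth_subst`, `DT.eval_subst`,
`DT.QIn.subst`, `DT.eval_congr`): depth `≤ 2 ^ ye y * sqrt |y| * P ^ (j-1) ≤ P ^ j`. Finally
`n ^ c < n ^ (2 ^ c)` for `2 ≤ n`.
-/

set_option autoImplicit false
set_option maxHeartbeats 1000000

namespace Pool.Agent.Lib.Pf91712p

open Pool.Agent.Lib.Pa76659 (Str Lang Prog PO accepts inp DT SL accTree)
open Pool.Agent.Lib.Pa76659G (pr on1 emp FPO fst snd)

/-- the oracles that are considered at a stage -/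
def Good (O0 : Lang) (n σ : ℕ) (St : Set Str) (O : Lang) : Prop :=
  Con O ∧ (∀ v : Str, v.length < n → O v = O0 v) ∧
    (∀ v : Str, n ≤ v.length → v ∉ St → (∀ y u : Str, u.length = yn y → v ≠ GS y u) →
      O v = false) ∧
    ∀ y u : Str, n ≤ (GS y u).length → yn y ≤ σ → u.length = yn y →
      u ≠ List.replicate (yn y) false → O (GS y u) = false

/-- the strings of the large groups of length at most `l` -/
def Lrg (n σ l : ℕ) : Set Str :=
  {v | ∃ y u : Str, v = GS y u ∧ u.length = yn y ∧ σ < yn y ∧ n ≤ v.length ∧ v.length ≤ l}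

namespace InlAux

theorem good_D {O0 : Lang} {n σ : ℕ} {St : Set Str} {O : Lang} (hO : Good O0 n σ St O) (y : Str)
    (hn : n ≤ (GS y (List.replicate (yn y) false)).length) (hy : yn y ≤ σ) :
    O (GS y (List.replicate (yn y) false)) = true ↔ D O y := by
  have hlen : (List.replicate (yn y) false).length = yn y := List.length_replicate
  have h1 := hO.1 y
  rw [FixAux.card_split O y _ hlen] at h1
  have h2 : FixAux.cn O y (List.replicate (yn y) false) = 0 := by
    unfold FixAux.cn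
    have h3 : {u : Str | u.length = yn y ∧ u ≠ List.replicate (yn y) false ∧
        O (GS y u) = true} = ∅ := by
      rw [Set.eq_empty_iff_forall_notMem]
      rintro u ⟨a1, a2, a3⟩
      have h4 := hO.2.2.2 y u (by
        rw [GS_length] at hn ⊢
        rw [a1]
        rwa [hlen] at hn) hy a1 a2
      rw [h4] at a3
      exact Bool.false_ne_true a3
    rw [h3, Set.ncard_empty]
  rw [h2, Nat.zero_add] at h1
  rw [← h1]
  by_cases h : O (GS y (List.replicate (yn y) false)) = true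
  · rw [if_pos h]
    exact ⟨fun _ => odd_one, fun _ => h⟩
  · rw [if_neg h]
    exact ⟨fun h5 => absurd h5 h, fun h5 => absurd h5 (by decide)⟩

theorem nodeT (S : Set Str) (v : Str) (hv : v ∈ S) (K : ℕ) (hK : 1 ≤ K) :
    ∃ T : DT Str Bool, T.depth ≤ K ∧ T.QIn S ∧ ∀ O : Lang, O v = T.eval O := by
  refine ⟨DT.node v (DT.leaf false) (DT.leaf true), hK, ⟨hv, trivial, trivial⟩, fun O => ?_⟩
  change O v = if O v = true then true else false
  cases O v <;> rfl

open Classical in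
theorem step (O0 : Lang) (n σ c P : ℕ) (St : Set Str)
    (hSt : ∀ v ∈ St, n ≤ v.length ∧ ∀ y u : Str, v ≠ GS y u)
    (hP : ∀ y : Str, y.length ≤ n ^ c → yn y ≤ σ → 2 ^ ye y * Nat.sqrt y.length ≤ P)
    (hP1 : 1 ≤ P) (j : ℕ)
    (ih : ∀ v : Str, v.length < n ^ (2 ^ j) → v.length ≤ n ^ c → ∃ T : DT Str Bool,
      T.depth ≤ P ^ j ∧ T.QIn (St ∪ Lrg n σ (n ^ c)) ∧
        ∀ O : Lang, Good O0 n σ St O → O v = T.eval O)
    (v : Str) (hv : v.length < n ^ (2 ^ (j + 1))) (hvc : v.length ≤ n ^ c) :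
    ∃ T : DT Str Bool, T.depth ≤ P ^ (j + 1) ∧ T.QIn (St ∪ Lrg n σ (n ^ c)) ∧
      ∀ O : Lang, Good O0 n σ St O → O v = T.eval O := by
  have hK : 1 ≤ P ^ (j + 1) := Nat.one_le_pow _ _ hP1
  rcases Nat.lt_or_ge v.length n with hvn | hvn
  · exact ⟨DT.leaf (O0 v), Nat.zero_le _, trivial, fun O hO => hO.2.1 v hvn⟩
  by_cases hS : v ∈ St
  · obtain ⟨T, h1, h2, h3⟩ := nodeT (St ∪ Lrg n σ (n ^ c)) v (Or.inl hS) _ hK
    exact ⟨T, h1, h2, fun O _ => h3 O⟩
  by_cases hG : ∃ y u : Str, u.length = yn y ∧ v = GS y u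
  swap
  · exact ⟨DT.leaf false, Nat.zero_le _, trivial, fun O hO =>
      hO.2.2.1 v hvn hS fun y u hu h => hG ⟨y, u, hu, h⟩⟩
  obtain ⟨y, u, hu, rfl⟩ := hG
  rcases Nat.lt_or_ge σ (yn y) with hy | hy
  · obtain ⟨T, h1, h2, h3⟩ := nodeT (St ∪ Lrg n σ (n ^ c)) (GS y u)
      (Or.inr ⟨y, u, rfl, hu, hy, hvn, hvc⟩) _ hK
    exact ⟨T, h1, h2, fun O _ => h3 O⟩
  by_cases hu0 : u = List.replicate (yn y) false
  swap
  · exact ⟨DT.leaf false, Nat.zero_le _, trivial, fun O hO => hO.2.2.2 y u hvn hy hu hu0⟩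
  subst hu0
  obtain ⟨T0, t1, t2, t3⟩ := D_tree y
  have hyv : y.length < (GS y (List.replicate (yn y) false)).length := by
    rw [GS_length]
    omega
  have hsq : Nat.sqrt y.length < n ^ (2 ^ j) := by
    rw [Nat.sqrt_lt', ← pow_mul, ← pow_succ]
    exact hyv.trans hv
  have hsc : Nat.sqrt y.length ≤ n ^ c :=
    (Nat.sqrt_le_self _).trans (hyv.le.trans hvc)
  have hex : ∀ w ∈ SL (Nat.sqrt y.length), ∃ T : DT Str Bool,
      T.depth ≤ P ^ j ∧ T.QIn (St ∪ Lrg n σ (n ^ c)) ∧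
        ∀ O : Lang, Good O0 n σ St O → O w = T.eval O := by
    intro w hw
    have hw' : w.length ≤ Nat.sqrt y.length := hw
    exact ih w (hw'.trans_lt hsq) (hw'.trans hsc)
  have hsub : ∃ sub : Str → DT Str Bool, ∀ w ∈ SL (Nat.sqrt y.length),
      (sub w).depth ≤ P ^ j ∧ (sub w).QIn (St ∪ Lrg n σ (n ^ c)) ∧
        ∀ O : Lang, Good O0 n σ St O → O w = (sub w).eval O := by
    refine ⟨fun w => if h : w ∈ SL (Nat.sqrt y.length) then (hex w h).choose else DT.leaf false,
      fun w hw => ?_⟩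
    simp only [dif_pos hw]
    exact (hex w hw).choose_spec
  obtain ⟨sub, hsub⟩ := hsub
  refine ⟨T0.subst sub, ?_, ?_, ?_⟩
  · refine (DT.depth_subst sub (SL (Nat.sqrt y.length)) (P ^ j) (fun w hw => (hsub w hw).1) T0
      t2).trans ?_
    rw [pow_succ, mul_comm (P ^ j)]
    exact Nat.mul_le_mul_right _ (t1.trans (hP y (hyv.le.trans hvc) hy))
  · exact DT.QIn.subst (fun w hw => (hsub w hw).2.1) t2
  · intro O hO
    rw [DT.eval_subst]
    have h1 : T0.eval (fun w => (sub w).eval O) = T0.eval O :=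
      DT.eval_congr (S := SL (Nat.sqrt y.length)) (fun w hw => ((hsub w hw).2.2 O hO).symm) t2
    rw [h1, Bool.eq_iff_iff, t3 O]
    exact good_D hO y hvn hy

end InlAux

theorem inline (O0 : Lang) (n σ c P : ℕ) (St : Set Str) (hn : 2 ≤ n)
    (hSt : ∀ v ∈ St, n ≤ v.length ∧ ∀ y u : Str, v ≠ GS y u)
    (hP : ∀ y : Str, y.length ≤ n ^ c → yn y ≤ σ → 2 ^ ye y * Nat.sqrt y.length ≤ P)
    (hP1 : 1 ≤ P) :
    ∀ v : Str, v.length ≤ n ^ c → ∃ T : DT Str Bool, T.depth ≤ P ^ c ∧
      T.QIn (St ∪ Lrg n σ (n ^ c)) ∧ ∀ O : Lang, Good O0 n σ St O → O v = T.eval O := by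
  intro v hv
  have key : ∀ (j : ℕ) (v : Str), v.length < n ^ (2 ^ j) → v.length ≤ n ^ c →
      ∃ T : DT Str Bool, T.depth ≤ P ^ j ∧ T.QIn (St ∪ Lrg n σ (n ^ c)) ∧
        ∀ O : Lang, Good O0 n σ St O → O v = T.eval O := by
    intro j
    induction j with
    | zero =>
      intro v hv _
      rw [pow_zero, pow_one] at hv
      exact ⟨DT.leaf (O0 v), Nat.zero_le _, trivial, fun O hO => hO.2.1 v hv⟩
    | succ j ih => exact InlAux.step O0 n σ c P St hSt hP hP1 j ih
  exact key c v (hv.trans_lt (Nat.pow_lt_pow_right (by omega) Nat.lt_two_pow_self)) hv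

end Pool.Agent.Lib.Pf91712p
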