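import Mathlib

/-!
The size bound of the lower bound theorem with cells.
-/

set_option autoImplicit false

namespace Pool.Agent.Lib.Pf91712p

/-- the size bound -/
def MbG (w R : ℕ) : ℕ → ℕ → ℕ
  | 0, t => t + 1
  | k + 1, t => (8 * t + 9) ^ 2 * (R * (k + 2) + 5) * (MbG w R k (w * k + 2) + 1)

end Pool.Agent.Lib.Pf91712p
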