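import Pool.Agent.Lib.Pf91712p.Gd2
import Pool.Agent.Lib.Pf91712p.Mb

/-!
The depth hierarchy theorem with additional variables (groups of cells): a circuit of depth `k` on
the variables of the tree and the cells differs from the tree of height `k+1` on a whole set of
assignments, which are free on at least one cell of every group.
-/

set_option autoImplicit false
set_option maxHeartbeats 4000000

namespace Pool.Agent.Lib.Pf91712p

open Pool.Agent.Lib.Pa76659 Pool.Agent.Lib.Pa76659.Switch Pool.Agent.Lib.Pa76659.Hier

theorem LBG_pieces {Γ : Type} [DecidableEq Γ] (G : ℕ) : ∀ (n : ℕ) (S : Finset Γ),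
    G * n ≤ S.card → ∃ P : Fin n → Finset Γ, (∀ j, P j ⊆ S) ∧ (∀ j, (P j).card = G) ∧
      ∀ j j', j ≠ j' → Disjoint (P j) (P j')
  | 0, S, _ => ⟨fun _ => ∅, fun j => j.elim0, fun j => j.elim0, fun j => j.elim0⟩
  | n + 1, S, h => by
      have h0 : G ≤ S.card := by nlinarith
      obtain ⟨T, hT1, hT2⟩ := Finset.exists_subset_card_eq h0
      obtain ⟨P, h1, h2, h3⟩ := LBG_pieces G n (S \ T) (by
        rw [Finset.card_sdiff_of_subset hT1, hT2]; rw [mul_add] at h; omega)
      have hd : ∀ j, Disjoint T (P j) := by
        intro j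
        rw [Finset.disjoint_left]
        intro g hg hg'
        exact (Finset.mem_sdiff.1 (h1 j hg')).2 hg
      refine ⟨Fin.cons T P, ?_, ?_, ?_⟩
      · intro j
        refine Fin.cases ?_ (fun j => ?_) j
        · simpa using hT1
        · simpa using (h1 j).trans Finset.sdiff_subset
      · intro j
        refine Fin.cases ?_ (fun j => ?_) j
        · simpa using hT2
        · simpa using h2 j
      · intro j j'
        refine Fin.cases ?_ (fun j => ?_) j
        · refine Fin.cases ?_ (fun j' => ?_) j'
          · intro h; exact absurd rfl h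
          · intro _; simpa using hd j'
        · refine Fin.cases ?_ (fun j' => ?_) j'
          · intro _; simpa using (hd j).symm
          · intro hne
            have : j ≠ j' := fun e => hne (by rw [e])
            simpa using h3 j j' this

/-- depth zero -/
theorem LBG_zero (w t : ℕ) {Γ Y : Type} [DecidableEq Γ] (m : ℕ → ℕ) (cells : Y → Finset Γ)
    (hm : t + 1 ≤ m 0) (hcells : ∀ y, t + 1 ≤ (cells y).card)
    (f : (List ℕ ⊕ Γ → Bool) → Bool) (hf : IsC Set.univ w t 0 f) :
    ∃ (z : List ℕ ⊕ Γ → Bool) (F : Set Γ), (∀ y, ∃ g ∈ cells y, g ∉ F) ∧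
      ∀ z' : List ℕ ⊕ Γ → Bool, (∀ v, z' (Sum.inl v) = z (Sum.inl v)) →
        (∀ g ∈ F, z' (Sum.inr g) = z (Sum.inr g)) →
        f z' ≠ tr m 1 (fun v => z' (Sum.inl v)) [] := by
  obtain ⟨T, h1, _, h3⟩ := hf
  let x : List ℕ ⊕ Γ → Bool := fun _ => true
  have h4 : (queries x T).length ≤ t := (queries_length x T).trans h1
  have h5 : ∃ y < m 0, Sum.inl [y] ∉ queries x T := by
    by_contra hcon
    push Not at hcon
    have h6 : ((Finset.range (m 0)).image (fun y => (Sum.inl [y] : List ℕ ⊕ Γ))) ⊆
        (queries x T).toFinset := by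
      intro l hl
      obtain ⟨y, hy, rfl⟩ := Finset.mem_image.1 hl
      exact List.mem_toFinset.2 (hcon y (Finset.mem_range.1 hy))
    have h7 := Finset.card_le_card h6
    rw [Finset.card_image_of_injective _ (by intro a b h; simpa using h), Finset.card_range] at h7
    have h8 := List.toFinset_card_le (queries x T)
    omega
  obtain ⟨y, hy, hy2⟩ := h5
  let x2 : List ℕ ⊕ Γ → Bool := fun l => decide (l ≠ Sum.inl [y])
  have h6 : T.eval x2 = T.eval x := by
    apply queries_eval
    intro v hv
    have : v ≠ Sum.inl [y] := by rintro rfl; exact hy2 hv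
    simp [x2, x, this]
  have h7 : tr m 1 (fun v => x (Sum.inl v)) [] = false := by simp [tr, x]
  have h8 : tr m 1 (fun v => x2 (Sum.inl v)) [] = true := by
    rw [tr]
    exact decide_eq_true ⟨y, hy, by simp [tr, x2]⟩
  have h9 : ∃ z : List ℕ ⊕ Γ → Bool, T.eval z ≠ tr m 1 (fun v => z (Sum.inl v)) [] := by
    by_cases hx : T.eval x = true
    · exact ⟨x, by rw [h7, hx]; simp⟩
    · exact ⟨x2, by rw [h8, h6]; exact hx⟩
  obtain ⟨z, hz⟩ := h9
  refine ⟨z, {g | Sum.inr g ∈ queries z T}, ?_, ?_⟩
  · intro y
    by_contra hcon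
    push Not at hcon
    have h6 : ((cells y).image (fun g => (Sum.inr g : List ℕ ⊕ Γ))) ⊆
        (queries z T).toFinset := by
      intro l hl
      obtain ⟨g, hg, rfl⟩ := Finset.mem_image.1 hl
      exact List.mem_toFinset.2 (hcon g hg)
    have h7 := Finset.card_le_card h6
    rw [Finset.card_image_of_injective _ (by intro a b h; simpa using h)] at h7
    have h8 := List.toFinset_card_le (queries z T)
    have h9 := hcells y
    have h10 := (queries_length z T).trans h1
    omega
  · intro z' hz1 hz2
    have e1 : T.eval z' = T.eval z := by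
      apply queries_eval
      rintro (v | g) hv
      · exact hz1 v
      · exact hz2 g hv
    have e2 : (fun v => z' (Sum.inl v)) = (fun v => z (Sum.inl v)) := funext hz1
    rw [h3, e1, e2]
    exact hz

/-- the renaming of the variables of the tree -/
def phi (m1 G : ℕ) (ch : List ℕ → ℕ → ℕ) : List ℕ → List ℕ ⊕ Bool
  | [] => Sum.inr true
  | y :: u => if y / G < m1 / G ∧ y = (y / G) * G + ch u (y / G) then
            Sum.inl ((y / G) :: u) else Sum.inr true

/-- new fan-ins -/
def mtwo (m : ℕ → ℕ) (G : ℕ) : ℕ → ℕ
  | 0 => m 1 / G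
  | i + 1 => m (i + 2)

theorem LBG_tree (m : ℕ → ℕ) (W k G : ℕ) (hGpos : 0 < G) (hm : ∀ i ≤ k + 1, m i ≤ W)
    (ρ : List ℕ ⊕ List ℕ → ℕ) (ch : List ℕ → ℕ → ℕ)
    (fa : ∀ b : List ℕ, b.length = k + 1 → (∀ a ∈ b, a < W) →
          ∃ y < m 0, ρ (Sum.inl (y :: b)) = 0)
    (hch : ∀ (u : List ℕ) (z : ℕ), u.length = k → (∀ a ∈ u, a < W) → z < m 1 / G →
          ch u z < G ∧ ρ (Sum.inr ((z * G + ch u z) :: u)) = 0)
    (x2 : List ℕ → Bool) :
    tr m (k + 1 + 1) (val List.tail ρ (fun v => Sum.elim x2 id (phi (m 1) G ch v))) [] =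
      tr (mtwo m G) (k + 1) x2 [] := by
  have hm1G : ∀ z y, z < m 1 / G → y < G → z * G + y < m 1 := by
    intro z y hz hy
    have h1 : (z + 1) * G ≤ m 1 / G * G := Nat.mul_le_mul_right _ hz
    have h2 : m 1 / G * G ≤ m 1 := Nat.div_mul_le_self _ _
    have h3 : (z + 1) * G = z * G + G := by ring
    omega
  set x1 : List ℕ → Bool := fun v => Sum.elim x2 id (phi (m 1) G ch v) with hx1
  let Y : List ℕ → Bool := fun b => if ρ (Sum.inr b) = 0 then x1 b else true
  have e1 : tr m (k + 1 + 1) (val List.tail ρ x1) [] = tr (fun i => m (i + 1)) (k + 1) Y [] := by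
    rw [tr_bot]
    apply tr_congr _ W
    · intro i hi; exact hm (i + 1) (by omega)
    · simp
    · intro b hb1 hb2
      obtain ⟨y0, hy0, hy1⟩ := fa b (by simpa using hb1) hb2
      simp only [bot, Y]
      by_cases hρb : ρ (Sum.inr b) = 0
      · rw [if_pos hρb]
        cases hxb : x1 b
        · simp only [decide_eq_false_iff_not, not_exists, not_and]
          intro y _ hy
          unfold val at hy
          simp only [List.tail_cons, hρb, hxb] at hy
          split_ifs at hy <;> simp_all
        · simp only [decide_eq_true_eq]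
          refine ⟨y0, hy0, ?_⟩
          unfold val
          simp [hρb, hxb, hy1]
      · rw [if_neg hρb]
        simp only [decide_eq_true_eq]
        refine ⟨y0, hy0, ?_⟩
        unfold val
        simp [hρb, hy1]
  have e2 : tr (fun i => m (i + 1)) (k + 1) Y [] = tr (mtwo m G) (k + 1) x2 [] := by
    rw [tr_bot, tr_bot]
    apply tr_congr _ W
    · intro i hi; exact hm (i + 1 + 1) (by omega)
    · simp
    · intro u hu1 hu2
      have hu1 : u.length = k := by simpa using hu1
      simp only [bot]
      apply decide_eq_decide.2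
      constructor
      · rintro ⟨y, hy, hy2⟩
        simp only [Y] at hy2
        split_ifs at hy2 with h1
        simp only [hx1, phi] at hy2
        split_ifs at hy2 with h2
        · exact ⟨y / G, h2.1, hy2⟩
        · simp at hy2
      · rintro ⟨z, hz, hz2⟩
        have hz' : z < m 1 / G := hz
        obtain ⟨h1, h2⟩ := hch u z hu1 hu2 hz'
        have hdiv : (z * G + ch u z) / G = z := by
          rw [mul_comm, Nat.mul_add_div hGpos, Nat.div_eq_of_lt h1]; rfl
        refine ⟨z * G + ch u z, hm1G z _ hz' h1, ?_⟩
        simp only [Y, h2, if_true, hx1, phi, hdiv, hz', true_and]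
        exact hz2
  rw [e1, e2]

theorem LBG (w R W : ℕ) (hW : W ≤ 2 ^ R) {Γ Y : Type} [DecidableEq Γ] [Fintype Y]
    (hY : Fintype.card Y ≤ 2 ^ R) : ∀ (k t : ℕ) (m : ℕ → ℕ) (cells : Y → Finset Γ),
    (∀ i ≤ k, MbG w R k t ≤ m i ∧ m i ≤ W) → (∀ y, MbG w R k t ≤ (cells y).card) →
    ∀ f : (List ℕ ⊕ Γ → Bool) → Bool, IsC Set.univ w t k f →
    ∃ (z : List ℕ ⊕ Γ → Bool) (F : Set Γ), (∀ y, ∃ g ∈ cells y, g ∉ F) ∧
      ∀ z' : List ℕ ⊕ Γ → Bool, (∀ v, z' (Sum.inl v) = z (Sum.inl v)) →
        (∀ g ∈ F, z' (Sum.inr g) = z (Sum.inr g)) →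
        f z' ≠ tr m (k + 1) (fun v => z' (Sum.inl v)) [] := by
  classical
  intro k
  induction k with
  | zero =>
      intro t m cells hm hcells f hf
      exact LBG_zero w t m cells (hm 0 le_rfl).1 hcells f hf
  | succ k ih =>
      intro t m cells hm hcells f hC
      obtain ⟨ι, hι, h, hc, hh, hs⟩ := reduce w t k _ hC
      choose F hF1 hF2 using fun i => toDNF (hh i)
      set s := w * k + 2 with hsdef
      set r := R * (k + 2) + 3 with hr
      set Q := 8 * t + 8 with hQ
      set G := (Q + 1) ^ 2 * (r + 2) with hG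
      have hGpos : 0 < G := by positivity
      set M' := MbG w R k s with hM'
      have hMb : MbG w R (k + 1) t = G * (M' + 1) := by
        rw [MbG, hG]
      have hm1W : m 1 ≤ W := (hm 1 (by omega)).2
      have hMb1 := (hm 1 (by omega)).1
      rw [hMb] at hMb1
      have hM'W : M' ≤ W := by
        have : M' ≤ G * (M' + 1) := by nlinarith
        omega
      choose P hP1 hP2 hP3 using fun y => LBG_pieces G M' (cells y) (by
        have h1 := hcells y
        rw [hMb] at h1
        calc G * M' ≤ G * (M' + 1) := Nat.mul_le_mul_left _ (by omega)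
          _ ≤ _ := h1)
      let β : List ℕ ⊕ Γ → List ℕ ⊕ Γ := Sum.map List.tail id
      let κ : Type := (Fin (k + 1) → Fin W) ⊕ ((Fin k → Fin W) × Fin (m 1 / G))
      let A : κ → Finset ((List ℕ ⊕ Γ) ⊕ (List ℕ ⊕ Γ)) := fun c => match c with
        | Sum.inl g => (Finset.range (m 0)).image (fun y => Sum.inl (Sum.inl (y :: lst g)))
        | Sum.inr (g, z) =>
            (Finset.range G).image (fun y => Sum.inr (Sum.inl ((z.1 * G + y) :: lst g)))
      let A' : Y × Fin M' → Finset (List ℕ ⊕ Γ) := fun c => (P c.1 c.2).image Sum.inr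
      let SE : Finset ((List ℕ ⊕ Γ) ⊕ (List ℕ ⊕ Γ)) := Finset.univ.biUnion A ∪
        (Finset.univ.biUnion (fun c => (A' c).image Sum.inl) ∪
          Finset.univ.biUnion (fun c => (A' c).image (fun v => Sum.inr (β v))))
      obtain ⟨ρ, hρ1, hρ2, hρ3⟩ := exists_good2 β t Q (w * k) r s le_rfl le_rfl SE (ι := ι)
        (κ := κ) (κ' := Y × Fin M') hc (by
          simp only [κ, Fintype.card_sum, Fintype.card_fun, Fintype.card_fin, Fintype.card_prod]
          have h1 : W ^ (k + 1) ≤ 2 ^ (R * (k + 1)) := by
            rw [pow_mul]; exact Nat.pow_le_pow_left hW _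
          have h2 : W ^ k * (m 1 / G) ≤ W ^ (k + 1) := by
            rw [pow_succ]
            exact Nat.mul_le_mul_left _ ((Nat.div_le_self _ _).trans hm1W)
          have h3 : 2 ^ (R * (k + 1)) * 2 ≤ 2 ^ r := by
            rw [hr, ← pow_succ]
            apply Nat.pow_le_pow_right (by norm_num)
            nlinarith
          omega) (by
          rw [Fintype.card_prod, Fintype.card_fin]
          calc Fintype.card Y * M' ≤ 2 ^ R * 2 ^ R := Nat.mul_le_mul hY (hM'W.trans hW)
            _ = 2 ^ (R + R) := (pow_add _ _ _).symm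
            _ ≤ 2 ^ r := by
              apply Nat.pow_le_pow_right (by norm_num)
              rw [hr]; nlinarith) F hF1 A (by
          intro c
          exact (Finset.subset_biUnion_of_mem A (Finset.mem_univ c)).trans
            Finset.subset_union_left) (by
          have hG0 : (Q + 1) * (r + 2) ≤ G := by
            rw [hG, pow_two]
            calc (Q + 1) * (r + 2) = (Q + 1) * 1 * (r + 2) := by ring
              _ ≤ (Q + 1) * (Q + 1) * (r + 2) := by gcongr; omega
          have hG1 : G ≤ m 0 := by
            have h1 := (hm 0 (by omega)).1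
            rw [hMb] at h1
            calc G = G * 1 := by ring
              _ ≤ G * (M' + 1) := Nat.mul_le_mul_left _ (by omega)
              _ ≤ m 0 := h1
          rintro (g | ⟨g, z⟩)
          · simp only [A]
            rw [Finset.card_image_of_injective _ (by intro a b h; simpa using h),
              Finset.card_range]
            exact hG0.trans hG1
          · simp only [A]
            rw [Finset.card_image_of_injective _ (by intro a b h; simpa using h),
              Finset.card_range]
            exact hG0) A' (by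
          intro c v hv v' hv' hvv
          obtain ⟨g, _, rfl⟩ := Finset.mem_image.1 hv
          obtain ⟨g', _, rfl⟩ := Finset.mem_image.1 hv'
          simpa [β] using hvv) (by
          intro c v hv
          constructor
          · apply Finset.mem_union_right
            apply Finset.mem_union_left
            exact Finset.mem_biUnion.2 ⟨c, Finset.mem_univ _, Finset.mem_image_of_mem _ hv⟩
          · apply Finset.mem_union_right
            apply Finset.mem_union_right
            exact Finset.mem_biUnion.2 ⟨c, Finset.mem_univ _,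
              Finset.mem_image_of_mem (fun v => Sum.inr (β v)) hv⟩) (by
          intro c
          simp only [A']
          rw [Finset.card_image_of_injective _ Sum.inr_injective, hP2])
      -- facts about the restriction
      have fa : ∀ b : List ℕ, b.length = k + 1 → (∀ a ∈ b, a < W) →
          ∃ y < m 0, ρ (Sum.inl (Sum.inl (y :: b))) = 0 := by
        intro b hb1 hb2
        obtain ⟨g, hg⟩ := exists_lst b hb2
        have : ∀ (n : ℕ) (_ : n = k + 1) (g : Fin n → Fin W), ∃ g' : Fin (k+1) → Fin W,
            lst g' = lst g := by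
          rintro n rfl g; exact ⟨g, rfl⟩
        obtain ⟨g', hg'⟩ := this _ hb1 g
        obtain ⟨e, he, he0⟩ := hρ2 (Sum.inl g')
        obtain ⟨y, hy, rfl⟩ := Finset.mem_image.1 he
        rw [hg', hg] at he0
        exact ⟨y, Finset.mem_range.1 hy, he0⟩
      have fb : ∀ u : List ℕ, ∀ z : ℕ, ∃ y : ℕ, u.length = k → (∀ a ∈ u, a < W) → z < m 1 / G →
          y < G ∧ ρ (Sum.inr (Sum.inl ((z * G + y) :: u))) = 0 := by
        intro u z
        by_cases hu : u.length = k ∧ (∀ a ∈ u, a < W) ∧ z < m 1 / G
        · obtain ⟨hu1, hu2, hz⟩ := hu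
          obtain ⟨g, hg⟩ := exists_lst u hu2
          have : ∀ (n : ℕ) (_ : n = k) (g : Fin n → Fin W), ∃ g' : Fin k → Fin W,
              lst g' = lst g := by
            rintro n rfl g; exact ⟨g, rfl⟩
          obtain ⟨g', hg'⟩ := this _ hu1 g
          obtain ⟨e, he, he0⟩ := hρ2 (Sum.inr (g', ⟨z, hz⟩))
          obtain ⟨y, hy, rfl⟩ := Finset.mem_image.1 he
          rw [hg', hg] at he0
          exact ⟨y, fun _ _ _ => ⟨Finset.mem_range.1 hy, he0⟩⟩
        · exact ⟨0, fun a b c => absurd ⟨a, b, c⟩ hu⟩
      choose ch hch using fb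
      -- alive cells
      let alive : Γ → Prop := fun g => ρ (Sum.inl (Sum.inr g)) = 0 ∧ ρ (Sum.inr (Sum.inr g)) = 0
      have hal : ∀ y, ∀ j : Fin M', ∃ g ∈ P y j, alive g := by
        intro y j
        obtain ⟨v, hv, hv1, hv2⟩ := hρ3 (y, j)
        obtain ⟨g, hg, rfl⟩ := Finset.mem_image.1 hv
        exact ⟨g, hg, hv1, hv2⟩
      let cells2 : Y → Finset Γ := fun y => (cells y).filter alive
      have hcells2 : ∀ y, M' ≤ (cells2 y).card := by
        intro y
        choose gg hgg1 hgg2 using hal y
        have h1 : (Finset.univ.image gg) ⊆ cells2 y := by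
          intro g hg
          obtain ⟨j, _, rfl⟩ := Finset.mem_image.1 hg
          exact Finset.mem_filter.2 ⟨hP1 y j (hgg1 j), hgg2 j⟩
        have h2 : Function.Injective gg := by
          intro j j' hjj
          by_contra hne
          exact Finset.disjoint_left.1 (hP3 y j j' hne) (hgg1 j) (by rw [hjj]; exact hgg1 j')
        have h3 := Finset.card_le_card h1
        rwa [Finset.card_image_of_injective _ h2, Finset.card_univ, Fintype.card_fin] at h3
      -- the simplified circuit
      have hsimp := hs (List ℕ ⊕ Γ) s (val β ρ) (by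
        intro i
        have h1 := hρ1 i
        unfold Hard at h1
        push Not at h1
        obtain ⟨D, hD1, hD2⟩ := h1
        refine ⟨D, by omega, ?_, fun x => ?_⟩
        · have : ∀ T : DT (List ℕ ⊕ Γ) Bool, T.QIn Set.univ := by
            intro T
            induction T with
            | leaf _ => trivial
            | node v f t hf ht => exact ⟨trivial, hf, ht⟩
          exact this D
        · have h3 := hD2 x (by intro b c hbc; simp at hbc)
          rw [← hF2] at h3
          cases h4 : h i (val β ρ x) <;> cases h5 : D.eval x <;> simp_all)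
      let φ : List ℕ ⊕ Γ → (List ℕ ⊕ Γ) ⊕ Bool := fun b => match b with
        | Sum.inl b => Sum.elim (fun u => Sum.inl (Sum.inl u)) Sum.inr (phi (m 1) G ch b)
        | Sum.inr g => if alive g then Sum.inl (Sum.inr g) else Sum.inr true
      have hren := hsimp.rename (S' := Set.univ) φ (fun _ _ _ _ => trivial)
      obtain ⟨z2, F2, hz2, hz3⟩ := ih s (mtwo m G) cells2 (by
        intro i hi
        cases i with
        | zero =>
            refine ⟨?_, (Nat.div_le_self _ _).trans hm1W⟩
            have : M' + 1 ≤ m 1 / G := by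
              rw [Nat.le_div_iff_mul_le hGpos]
              calc (M' + 1) * G = G * (M' + 1) := by ring
                _ ≤ m 1 := hMb1
            simp only [mtwo]; omega
        | succ i =>
            have h1 := hm (i + 2) (by omega)
            refine ⟨?_, h1.2⟩
            rw [hMb] at h1
            calc M' ≤ G * (M' + 1) := by nlinarith
              _ ≤ _ := h1.1) hcells2 _ hren
      let X : (List ℕ ⊕ Γ → Bool) → (List ℕ ⊕ Γ → Bool) := fun x v => Sum.elim x id (φ v)
      have hXl : ∀ x b, X x (Sum.inl b) =
          Sum.elim (fun u => x (Sum.inl u)) id (phi (m 1) G ch b) := by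
        intro x b
        simp only [X, φ]
        cases phi (m 1) G ch b <;> rfl
      have hXr : ∀ x g, alive g → X x (Sum.inr g) = x (Sum.inr g) := by
        intro x g hg
        simp only [X, φ, if_pos hg, Sum.elim_inl]
      have hvr : ∀ x g, alive g → val β ρ (X x) (Sum.inr g) = !(x (Sum.inr g)) := by
        intro x g hg
        have e : β (Sum.inr g) = Sum.inr g := rfl
        unfold val
        rw [e, if_neg (not_not.2 hg.1), if_neg (not_not.2 hg.2), hXr x g hg]
      have hvr2 : ∀ x x' g, ¬ alive g → val β ρ (X x) (Sum.inr g) =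
          val β ρ (X x') (Sum.inr g) := by
        intro x x' g hg
        have e : β (Sum.inr g) = Sum.inr g := rfl
        unfold val
        rw [e]
        by_cases h1 : ρ (Sum.inl (Sum.inr g)) = 0
        · have h2 : ρ (Sum.inr (Sum.inr g)) ≠ 0 := fun h2 => hg ⟨h1, h2⟩
          rw [if_neg (not_not.2 h1), if_neg (not_not.2 h1), if_pos h2, if_pos h2]
        · rw [if_pos h1, if_pos h1]
      let ρ' : List ℕ ⊕ List ℕ → ℕ := fun e => ρ (Sum.map Sum.inl Sum.inl e)
      have hvl : ∀ x b, val β ρ (X x) (Sum.inl b) =
          val List.tail ρ' (fun v => Sum.elim (fun u => x (Sum.inl u)) id (phi (m 1) G ch v)) b := by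
        intro x b
        have e : β (Sum.inl b) = Sum.inl b.tail := rfl
        unfold val
        rw [e, hXl]
        rfl
      refine ⟨val β ρ (X z2), {g | ¬ alive g} ∪ F2, ?_, ?_⟩
      · intro y
        obtain ⟨g, hg, hg2⟩ := hz2 y
        obtain ⟨hg3, hg4⟩ := Finset.mem_filter.1 hg
        refine ⟨g, hg3, ?_⟩
        rintro (hg5 | hg5)
        · exact hg5 hg4
        · exact hg2 hg5
      · intro z' hz'1 hz'2
        let z2' : List ℕ ⊕ Γ → Bool := Sum.elim (fun v => z2 (Sum.inl v))
          (fun g => if alive g then !(z' (Sum.inr g)) else z2 (Sum.inr g))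
        have e1 : val β ρ (X z2') = z' := by
          funext v
          rcases v with b | g
          · rw [hvl, hz'1, hvl]
            rfl
          · by_cases hg : alive g
            · rw [hvr _ _ hg]
              simp only [z2', Sum.elim_inr, if_pos hg, Bool.not_not]
            · rw [hvr2 z2' z2 g hg, hz'2 g (Or.inl hg)]
        have e2 := hz3 z2' (fun v => rfl) (by
          intro g hg
          by_cases ha : alive g
          · simp only [z2', Sum.elim_inr, if_pos ha]
            rw [hz'2 g (Or.inr hg), hvr _ _ ha, Bool.not_not]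
          · simp only [z2', Sum.elim_inr, if_neg ha])
        have e3 : tr m (k + 1 + 1) (fun v => z' (Sum.inl v)) [] =
            tr (mtwo m G) (k + 1) (fun v => z2' (Sum.inl v)) [] := by
          rw [← LBG_tree m W k G hGpos (fun i hi => (hm i hi).2) ρ' ch fa hch
            (fun v => z2' (Sum.inl v))]
          congr 1
          funext v
          rw [← hvl, e1]
        rw [e3]
        have e4 : f (val β ρ (X z2')) = f z' := by rw [e1]
        rw [← e4]
        exact e2

end Pool.Agent.Lib.Pf91712p
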