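import Pool.Agent.Lib.Pf91712p.Circ

/-!
The machine of level `t` at the instance `x = 1^n`, as a circuit.

PLAN. `c := 2 * c1 + 3` where `p.eval v ≤ v ^ c1` for `v ≥ 2` (`Pa76659.poly_le`). The input
`pr x (pr a w)` with `|w| = t * (b * log n)` has length `2 n + 2 |a| + 2 + |w| ≤ n ^ 2` for `n` large,
so input length plus time is `≤ n ^ c`; `alt_isC` with `accTree` (`accTree_depth`, `accTree_qin`,
`accTree_eval`, `inp_bdd`).
-/

set_option autoImplicit false
set_option maxHeartbeats 1000000

namespace Pool.Agent.Lib.Pf91712p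

open Pool.Agent.Lib.Pa76659 (Str Lang Prog PO accepts inp DT SL accTree IsC)
open Pool.Agent.Lib.Pa76659G (pr on1)

/-- the statement decided by the machine `M`, time `p`, advice `a`, blocks of `b log |x|` bits -/
def MS (t : ℕ) (M : Prog) (p : Polynomial ℕ) (a : Str) (b : ℕ) (x : Str) (O : Lang) : Prop :=
  Alt (b * lg x) t true (fun w => accepts O M (inp (pr x (pr a w)))
    (p.eval (pr x (pr a w)).length) = true) []

namespace MachAux

theorem dec_iff {q : Prop} (h : Decidable q) : @decide q h = true ↔ q := decide_eq_true_iff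

theorem len_bound (t b la n L : ℕ) (hn : t * b + 2 * la + 6 ≤ n) (hL : L ≤ n) :
    2 * n + 1 + (2 * la + 1 + t * (b * L)) ≤ n ^ 2 := by
  have h1 : t * (b * L) ≤ t * b * n := by
    rw [← mul_assoc]
    exact Nat.mul_le_mul_left _ hL
  have h2 : (t * b + 2 * la + 6) * n ≤ n ^ 2 := by
    rw [pow_two]
    exact Nat.mul_le_mul_right _ hn
  have h3 : (t * b + 2 * la + 6) * n = t * b * n + 2 * la * n + 6 * n := by ring
  have h4 : 2 * la ≤ 2 * la * n := Nat.le_mul_of_pos_right _ (by omega)
  omega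

end MachAux

open Classical in
theorem mach_isC (t : ℕ) (p : Polynomial ℕ) : ∃ c : ℕ, 1 ≤ c ∧ ∀ (M : Prog) (a : Str) (b : ℕ),
    ∃ n0 : ℕ, ∀ n ≥ n0, IsC (SL (n ^ c)) (b * Nat.log 2 n) (n ^ c) t
      (fun O => decide (MS t M p a b (on1 n) O)) := by
  obtain ⟨c1, hc1⟩ := Pa76659.poly_le (Polynomial.X + p)
  refine ⟨2 * c1 + 1, by omega, fun M a b => ⟨t * b + 2 * a.length + 6, fun n hn => ?_⟩⟩
  have hlen : (on1 n).length = n := List.length_replicate
  have hlg : lg (on1 n) = Nat.log 2 n := by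
    unfold lg
    rw [hlen]
  have hL : Nat.log 2 n ≤ n := Nat.log_le_self 2 n
  have hmain := (alt_isC (SL (n ^ (2 * c1 + 1))) (b * Nat.log 2 n) (b * Nat.log 2 n)
    (n ^ (2 * c1 + 1)) le_rfl (fun O w => accepts O M (inp (pr (on1 n) (pr a w)))
      (p.eval (pr (on1 n) (pr a w)).length) = true) t [] ?_).1
  · refine hmain.congr fun O => ?_
    unfold MS
    rw [hlg]
  · intro v hv
    rw [List.length_nil, Nat.zero_add] at hv
    have hN : (pr (on1 n) (pr a v)).length ≤ n ^ 2 := by
      rw [Pa76659G.pr_length, Pa76659G.pr_length, hlen, hv]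
      exact MachAux.len_bound t b a.length n (Nat.log 2 n) hn hL
    have h1 : (Polynomial.X + p).eval (pr (on1 n) (pr a v)).length ≤ n ^ (2 * c1 + 1) := by
      refine (Pa76659.poly_mono _ hN).trans ((hc1 (n ^ 2) ?_).trans ?_)
      · have h6 : n ≤ n ^ 2 := Nat.le_self_pow (by norm_num) n
        omega
      · rw [← pow_mul]
        exact Nat.pow_le_pow_right (by omega) (by omega)
    rw [Polynomial.eval_add, Polynomial.eval_X] at h1
    refine ⟨accTree M (inp (pr (on1 n) (pr a v))) (p.eval (pr (on1 n) (pr a v)).length),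
      (Pa76659.accTree_depth _ _ _).trans (by omega), ?_, fun O => ?_⟩
    · refine (Pa76659.accTree_qin _ _ _ _ (Pa76659.inp_bdd _)).mono fun w hw => ?_
      have hw' : w.length ≤ (pr (on1 n) (pr a v)).length +
        p.eval (pr (on1 n) (pr a v)).length := hw
      exact hw'.trans h1
    · rw [Pa76659.accTree_eval, Bool.eq_iff_iff]
      exact MachAux.dec_iff _

end Pool.Agent.Lib.Pf91712p
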