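import Pool.Agent.Lib.Pf91712p.Mb

/-!
The choice of the exponents.

PLAN. Take `A := 8 * c`, `b1 := 2 + c + 8 * c^2 + (c + 5) * (T + 1)`, with
`C' := c + c * (c + c * A + b1)` (so `n ^ c * (n ^ (c + c*A + b1)) ^ c = n ^ C'`) and
`K0 := 2 * C' + 1 + (c + 5) * (T + 1) + 1`, `k0 := 2 * K0`: for `n` large `MbG (b * m) (n ^ (c+1)) T
(n ^ C') ≤ n ^ K0` (every level but the first costs `(8 (b m T + 2) + 9)^2 * (n^(c+1) (T + 2) + 5) *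
2 ≤ n ^ (c + 5)`, the first one has `(8 n ^ C' + 9)^2 ≤ n ^ (2 C' + 1)`) and
`n ^ K0 < 2 ^ ((m + 1) * K0) ≤ 2 ^ (2 K0 m)` (`m ≥ 1`, `n < 2 ^ (m+1)`), `2 K0 ≤ A * b1`.
Any other constants `A, b1, k0` are fine as well. (`m = Nat.log 2 n`, `b m T + 2 ≤ ...` use e.g.
`(Nat.log 2 n) ^ 3 ≤ n` for `n` large.)
-/

set_option autoImplicit false
set_option maxHeartbeats 1000000

namespace Pool.Agent.Lib.Pf91712p

namespace NumMAux

theorem cube (L : ℕ) (hL : 10 ≤ L) : L ^ 3 ≤ 2 ^ L := by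
  induction L, hL using Nat.le_induction with
  | base => norm_num
  | succ L hL ih =>
    have h1 : (L + 1) ^ 3 ≤ 2 * L ^ 3 := by nlinarith [Nat.mul_le_mul hL hL]
    calc (L + 1) ^ 3 ≤ 2 * L ^ 3 := h1
      _ ≤ 2 * 2 ^ L := Nat.mul_le_mul_left 2 ih
      _ = 2 ^ (L + 1) := by rw [pow_succ]; ring

theorem log_ge {m n : ℕ} (h : 2 ^ m ≤ n) : m ≤ Nat.log 2 n :=
  Nat.le_log_of_pow_le (by norm_num) h

theorem logb (α β : ℕ) : ∃ N0 : ℕ, ∀ n ≥ N0, (α * Nat.log 2 n + β) ^ 2 + 1 ≤ n := by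
  refine ⟨2 ^ ((α + β + 1) ^ 2 + 10), fun n hn => ?_⟩
  obtain ⟨L, hL⟩ : ∃ L, L = Nat.log 2 n := ⟨_, rfl⟩
  have h1 : (α + β + 1) ^ 2 + 10 ≤ L := by rw [hL]; exact log_ge hn
  have hn0 : n ≠ 0 := by
    have : 0 < 2 ^ ((α + β + 1) ^ 2 + 10) := by positivity
    omega
  have h2 : 2 ^ L ≤ n := by rw [hL]; exact Nat.pow_log_le_self 2 hn0
  have h3 := cube L (by omega)
  rw [← hL]
  have h4 : α * L + β ≤ (α + β) * L := by nlinarith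
  have h5 : (α * L + β) ^ 2 ≤ ((α + β) * L) ^ 2 := Nat.pow_le_pow_left h4 2
  have h6 : ((α + β) * L) ^ 2 + 1 ≤ (α + β + 1) ^ 2 * L ^ 2 := by
    have h7 : (α + β + 1) ^ 2 * L ^ 2 = ((α + β) * L) ^ 2 + (2 * (α + β) + 1) * L ^ 2 := by ring
    have h8 : 1 ≤ L ^ 2 := Nat.one_le_pow _ _ (by omega)
    rw [h7]
    nlinarith
  have h9 : (α + β + 1) ^ 2 * L ^ 2 ≤ L * L ^ 2 := Nat.mul_le_mul_right _ (by omega)
  have h10 : L * L ^ 2 = L ^ 3 := by ring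
  omega

theorem bd (c b : ℕ) : ∀ T : ℕ, ∃ N0 : ℕ, ∀ n ≥ N0, ∀ t : ℕ,
    MbG (b * Nat.log 2 n) (n ^ (c + 1)) T t ≤ (8 * t + 9) ^ 2 * n ^ ((c + 4) * T) := by
  intro T
  induction T with
  | zero =>
    refine ⟨0, fun n _ t => ?_⟩
    have h : MbG (b * Nat.log 2 n) (n ^ (c + 1)) 0 t = t + 1 := rfl
    rw [h, Nat.mul_zero, pow_zero, Nat.mul_one]
    nlinarith
  | succ T ih =>
    obtain ⟨N1, h1⟩ := ih
    obtain ⟨N2, h2⟩ := logb (8 * b * T) 25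
    refine ⟨N1 + N2 + (T + 7), fun n hn t => ?_⟩
    have h : MbG (b * Nat.log 2 n) (n ^ (c + 1)) (T + 1) t = (8 * t + 9) ^ 2 *
        (n ^ (c + 1) * (T + 2) + 5) *
        (MbG (b * Nat.log 2 n) (n ^ (c + 1)) T (b * Nat.log 2 n * T + 2) + 1) := rfl
    have h3 := h1 n (by omega) (b * Nat.log 2 n * T + 2)
    have h4 := h2 n (by omega)
    have hn1 : 1 ≤ n := by omega
    have e1 : 8 * (b * Nat.log 2 n * T + 2) + 9 = 8 * b * T * Nat.log 2 n + 25 := by ring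
    rw [e1] at h3
    have hp : 1 ≤ n ^ ((c + 4) * T) := Nat.one_le_pow _ _ hn1
    have h5 : MbG (b * Nat.log 2 n) (n ^ (c + 1)) T (b * Nat.log 2 n * T + 2) + 1 ≤
        n * n ^ ((c + 4) * T) := by
      calc MbG (b * Nat.log 2 n) (n ^ (c + 1)) T (b * Nat.log 2 n * T + 2) + 1
          ≤ (8 * b * T * Nat.log 2 n + 25) ^ 2 * n ^ ((c + 4) * T) + n ^ ((c + 4) * T) :=
            Nat.add_le_add h3 hp
        _ = ((8 * b * T * Nat.log 2 n + 25) ^ 2 + 1) * n ^ ((c + 4) * T) := by ring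
        _ ≤ n * n ^ ((c + 4) * T) := Nat.mul_le_mul_right _ h4
    have hp2 : 1 ≤ n ^ (c + 1) := Nat.one_le_pow _ _ hn1
    have h6 : n ^ (c + 1) * (T + 2) + 5 ≤ n ^ (c + 1) * n := by
      calc n ^ (c + 1) * (T + 2) + 5 ≤ n ^ (c + 1) * (T + 2) + n ^ (c + 1) * 5 := by omega
        _ = n ^ (c + 1) * (T + 7) := by ring
        _ ≤ n ^ (c + 1) * n := Nat.mul_le_mul_left _ (by omega)
    have hp3 : n ^ (c + 3) ≤ n ^ (c + 4) := Nat.pow_le_pow_right hn1 (by omega)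
    rw [h]
    calc (8 * t + 9) ^ 2 * (n ^ (c + 1) * (T + 2) + 5) *
        (MbG (b * Nat.log 2 n) (n ^ (c + 1)) T (b * Nat.log 2 n * T + 2) + 1)
        ≤ (8 * t + 9) ^ 2 * (n ^ (c + 1) * n) * (n * n ^ ((c + 4) * T)) :=
          Nat.mul_le_mul (Nat.mul_le_mul_left _ h6) h5
      _ = (8 * t + 9) ^ 2 * (n ^ (c + 3) * n ^ ((c + 4) * T)) := by ring
      _ ≤ (8 * t + 9) ^ 2 * (n ^ (c + 4) * n ^ ((c + 4) * T)) :=
          Nat.mul_le_mul_left _ (Nat.mul_le_mul_right _ hp3)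
      _ = (8 * t + 9) ^ 2 * n ^ ((c + 4) * (T + 1)) := by
          rw [← pow_add]
          congr 2
          ring

end NumMAux

open NumMAux

theorem num_M (c T : ℕ) (hc : 1 ≤ c) : ∃ A b1 k0 : ℕ, 1 ≤ A ∧ ∀ k ≥ k0, ∀ b : ℕ, ∃ n0 : ℕ,
    ∀ n ≥ n0,
      MbG (b * Nat.log 2 n) (n ^ (c + 1)) T (n ^ c * (n ^ (c + c * A + b1)) ^ c)
        ≤ 2 ^ (k * Nat.log 2 n) ∧
      MbG (b * Nat.log 2 n) (n ^ (c + 1)) T (n ^ c * (n ^ (c + c * A + b1)) ^ c)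
        ≤ 2 ^ (A * b1 * Nat.log 2 n + 1) ∧
      k * Nat.log 2 n ≤ n ^ (c + 1) ∧ n ^ c + 1 ≤ n ^ (c + 1) := by
  obtain ⟨S, hS⟩ : ∃ S, S = 2 + (c + 4) * T := ⟨_, rfl⟩
  obtain ⟨A, hA⟩ : ∃ A, A = 4 * c := ⟨_, rfl⟩
  obtain ⟨b1, hb1⟩ : ∃ b1, b1 = 1 + c + 4 * c ^ 2 + (S + 1) := ⟨_, rfl⟩
  obtain ⟨C, hC⟩ : ∃ C, C = c + c * (c + c * A + b1) := ⟨_, rfl⟩
  obtain ⟨K0, hK0⟩ : ∃ K0, K0 = 2 * C + S := ⟨_, rfl⟩
  have hAb : K0 + 1 ≤ A * b1 := by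
    have e1 : K0 + 1 = 2 * c + 2 * c ^ 2 + 8 * c ^ 3 + 2 * c * b1 + (S + 1) := by
      rw [hK0, hC, hA]; ring
    have e2 : A * b1 = 2 * c * b1 + 2 * c * b1 := by rw [hA]; ring
    have e3 : 2 * c * b1 = 2 * c + 2 * c ^ 2 + 8 * c ^ 3 + 2 * c * (S + 1) := by
      rw [hb1]; ring
    have e4 : S + 1 ≤ 2 * c * (S + 1) := Nat.le_mul_of_pos_left _ (by omega)
    omega
  refine ⟨A, b1, K0 + 1, by omega, fun k hk b => ?_⟩
  obtain ⟨N0, hN0⟩ := bd c b T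
  obtain ⟨Q, hQ⟩ : ∃ Q : ℕ, Q = 2 ^ (K0 + k + 10) := ⟨_, rfl⟩
  refine ⟨N0 + 17 + Q, fun n hn => ?_⟩
  obtain ⟨L, hL⟩ : ∃ L, L = Nat.log 2 n := ⟨_, rfl⟩
  have hQn : Q ≤ n := by omega
  have hLk : K0 + k + 10 ≤ L := by
    rw [hL]
    apply log_ge
    rw [← hQ]
    exact hQn
  have hn0 : n ≠ 0 := by omega
  have h2L : 2 ^ L ≤ n := by rw [hL]; exact Nat.pow_log_le_self 2 hn0
  have hn2 : n < 2 ^ (L + 1) := by rw [hL]; exact Nat.lt_pow_succ_log_self (by norm_num) n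
  have hn1 : 1 ≤ n := by omega
  have hM : MbG (b * L) (n ^ (c + 1)) T (n ^ c * (n ^ (c + c * A + b1)) ^ c) ≤ n ^ K0 := by
    have h1 := hN0 n (by omega) (n ^ c * (n ^ (c + c * A + b1)) ^ c)
    rw [← hL] at h1
    refine h1.trans ?_
    have e1 : n ^ c * (n ^ (c + c * A + b1)) ^ c = n ^ C := by
      rw [← pow_mul, ← pow_add, hC]
      congr 1
      ring
    rw [e1]
    have hp : 1 ≤ n ^ C := Nat.one_le_pow _ _ hn1
    have h2 : 8 * n ^ C + 9 ≤ n ^ (C + 1) := by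
      calc 8 * n ^ C + 9 ≤ 17 * n ^ C := by omega
        _ ≤ n * n ^ C := Nat.mul_le_mul_right _ (by omega)
        _ = n ^ (C + 1) := by rw [pow_succ]; ring
    calc (8 * n ^ C + 9) ^ 2 * n ^ ((c + 4) * T) ≤ (n ^ (C + 1)) ^ 2 * n ^ ((c + 4) * T) :=
          Nat.mul_le_mul_right _ (Nat.pow_le_pow_left h2 2)
      _ = n ^ K0 := by
          rw [← pow_mul, ← pow_add, hK0, hS]
          congr 1
          ring
  have hK : n ^ K0 ≤ 2 ^ ((L + 1) * K0) := by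
    rw [pow_mul]
    exact Nat.pow_le_pow_left hn2.le K0
  have hLK : (L + 1) * K0 ≤ (K0 + 1) * L := by
    have e1 : (L + 1) * K0 = K0 * L + K0 := by ring
    have e2 : (K0 + 1) * L = K0 * L + L := by ring
    omega
  rw [← hL]
  refine ⟨?_, ?_, ?_, ?_⟩
  · refine hM.trans (hK.trans (Nat.pow_le_pow_right (by norm_num) (hLK.trans ?_)))
    exact Nat.mul_le_mul_right L hk
  · refine hM.trans (hK.trans (Nat.pow_le_pow_right (by norm_num) (hLK.trans ?_)))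
    exact (Nat.mul_le_mul_right L hAb).trans (Nat.le_succ _)
  · have h1 := cube L (by omega)
    have h2 : k * L ≤ L ^ 3 := by
      calc k * L ≤ L * L := Nat.mul_le_mul_right L (by omega)
        _ ≤ L * L * L := Nat.le_mul_of_pos_right _ (by omega)
        _ = L ^ 3 := by ring
    have h3 : n ≤ n ^ (c + 1) := by
      calc n = n ^ 1 := (pow_one n).symm
        _ ≤ n ^ (c + 1) := Nat.pow_le_pow_right hn1 (by omega)
    omega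
  · have hp : 1 ≤ n ^ c := Nat.one_le_pow _ _ hn1
    calc n ^ c + 1 ≤ n ^ c * 2 := by omega
      _ ≤ n ^ c * n := Nat.mul_le_mul_left _ (by omega)
      _ = n ^ (c + 1) := (pow_succ n c).symm

end Pool.Agent.Lib.Pf91712p
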