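import Pool.Agent.Lib.Pf91712p.Defs

/-!
The size of the decision trees of small groups.

PLAN. `num_P`: put `a := yt y * yh y`, so `ye y = a * lg (yx y)` and
`yn y = a * (a + 1) * lg (yx y)`; `|yx y| ≤ |y| ≤ n ^ c` (`Pa76659G.fst_length`). If `a ≤ A` then
`2 ^ ye y ≤ (2 ^ log |yx y|) ^ A ≤ (n ^ c) ^ A` (`Nat.pow_log_le_self`; `|yx y| = 0` gives `1`).
If `a > A` then `yn y ≥ A * ye y`, so `ye y ≤ b1 * log n` and `2 ^ ye y ≤ n ^ b1`.
-/

set_option autoImplicit false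

namespace Pool.Agent.Lib.Pf91712p

open Pool.Agent.Lib.Pa76659 (Str Lang)

theorem num_P (n c A b1 : ℕ) (hn : 2 ≤ n) (hA : 1 ≤ A) (y : Str) (h1 : y.length ≤ n ^ c)
    (h2 : yn y ≤ A * b1 * Nat.log 2 n) :
    2 ^ ye y * Nat.sqrt y.length ≤ n ^ (c + c * A + b1) := by
  have hx : (yx y).length ≤ n ^ c := (Pool.Agent.Lib.Pa76659G.fst_length y).trans h1
  have hs : Nat.sqrt y.length ≤ n ^ c := (Nat.sqrt_le_self _).trans h1
  have hnc : 1 ≤ n ^ c := Nat.one_le_pow _ _ (by omega)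
  have hL : 2 ^ lg (yx y) ≤ n ^ c := by
    unfold lg
    rcases Nat.eq_zero_or_pos (yx y).length with h0 | h0
    · rw [h0]; simpa using hnc
    · exact (Nat.pow_log_le_self 2 (by omega)).trans hx
  have e1 : ye y = (yt y * yh y) * lg (yx y) := by unfold ye; ring
  have key : 2 ^ ye y ≤ n ^ (c * A + b1) := by
    rcases Nat.lt_or_ge A (yt y * yh y) with ha | ha
    · have e2 : A * ye y ≤ yn y := by
        rw [e1]
        unfold yn
        calc A * ((yt y * yh y) * lg (yx y)) ≤ (yt y * yh y + 1) * ((yt y * yh y) * lg (yx y)) :=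
              Nat.mul_le_mul_right _ (by omega)
          _ = _ := by ring
      have e3 : A * ye y ≤ A * (b1 * Nat.log 2 n) := by
        rw [← Nat.mul_assoc]; exact e2.trans h2
      have e4 : ye y ≤ b1 * Nat.log 2 n := Nat.le_of_mul_le_mul_left e3 hA
      calc 2 ^ ye y ≤ 2 ^ (b1 * Nat.log 2 n) := Nat.pow_le_pow_right (by norm_num) e4
        _ = (2 ^ Nat.log 2 n) ^ b1 := by rw [mul_comm, pow_mul]
        _ ≤ n ^ b1 := Nat.pow_le_pow_left (Nat.pow_log_le_self 2 (by omega)) _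
        _ ≤ n ^ (c * A + b1) := Nat.pow_le_pow_right (by omega) (by omega)
    · calc 2 ^ ye y = (2 ^ lg (yx y)) ^ (yt y * yh y) := by rw [e1, mul_comm, pow_mul]
        _ ≤ (n ^ c) ^ (yt y * yh y) := Nat.pow_le_pow_left hL _
        _ ≤ (n ^ c) ^ A := Nat.pow_le_pow_right hnc ha
        _ = n ^ (c * A) := by rw [pow_mul]
        _ ≤ n ^ (c * A + b1) := Nat.pow_le_pow_right (by omega) (by omega)
  calc 2 ^ ye y * Nat.sqrt y.length ≤ n ^ (c * A + b1) * n ^ c := Nat.mul_le_mul key hs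
    _ = n ^ (c + c * A + b1) := by rw [← pow_add]; congr 1; ring

end Pool.Agent.Lib.Pf91712p
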