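import Pool.Agent.Lib.Pf91712p.Inl
import Pool.Agent.Lib.Pf91712p.NumP
import Pool.Agent.Lib.Pf91712p.NumM
import Pool.Agent.Lib.Pf91712p.LBG
import Pool.Agent.Lib.Pf91712p.Mach

/-!
One stage of the construction.
-/

set_option autoImplicit false
set_option maxHeartbeats 1000000

namespace Pool.Agent.Lib.Pf91712p

open Pool.Agent.Lib.Pa76659 (Str Lang Prog PO accepts inp DT SL accTree IsC bs bs_length bs_inj
  bs_surj)
open Pool.Agent.Lib.Pa76659.Hier (tr tr_congr)
open Pool.Agent.Lib.Pa76659G (pr on1)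

theorem wd_surj (m : ℕ) : ∀ (l : ℕ) (w : Str), w.length = l * m →
    ∃ u : List ℕ, u.length = l ∧ (∀ a ∈ u, a < 2 ^ m) ∧ wd m u = w
  | 0, w, hw => ⟨[], rfl, by simp, by
      rw [Nat.zero_mul, List.length_eq_zero_iff] at hw
      rw [hw]; rfl⟩
  | l + 1, w, hw => by
      rw [Nat.succ_mul] at hw
      obtain ⟨u, h1, h2, h3⟩ := wd_surj m l (w.take (l * m)) (by
        rw [List.length_take]; omega)
      obtain ⟨y, hy, hy2⟩ := bs_surj (m := m) (z := w.drop (l * m)) (by
        rw [List.length_drop]; omega)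
      refine ⟨y :: u, by simp [h1], ?_, ?_⟩
      · intro a ha
        rcases List.mem_cons.1 ha with ha | ha
        · rw [ha]; exact hy
        · exact h2 a ha
      · rw [wd, h3, hy2, List.take_append_drop]

/-- the index type of the large groups -/
def LY (n σ l : ℕ) : Set Str :=
  {y | n ≤ 2 * y.length + 2 + yn y ∧ 2 * y.length + 2 + yn y ≤ l ∧ σ < yn y}

theorem LY_inj (n σ l : ℕ) : Function.Injective
    (fun (y : LY n σ l) (i : Fin l) => y.1[i.1]?) := by
  rintro ⟨y, hy⟩ ⟨y', hy'⟩ h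
  apply Subtype.ext
  apply List.ext_getElem?
  intro i
  by_cases hi : i < l
  · exact congrFun h ⟨i, hi⟩
  · have h1 := hy.2.1
    have h2 := hy'.2.1
    rw [List.getElem?_eq_none (by simp only; omega), List.getElem?_eq_none (by simp only; omega)]

noncomputable instance (n σ l : ℕ) : Fintype (LY n σ l) :=
  Fintype.ofInjective _ (LY_inj n σ l)

theorem LY_card (n σ l : ℕ) : Fintype.card (LY n σ l) ≤ 2 ^ (2 * l) := by
  have h := Fintype.card_le_of_injective _ (LY_inj n σ l)
  refine h.trans ?_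
  rw [Fintype.card_fun, Fintype.card_option, Fintype.card_bool, Fintype.card_fin, pow_mul]
  exact Nat.pow_le_pow_left (by norm_num) _

/-- the strings of a group -/
def cellsOf (y : Str) : Finset Str :=
  (Finset.univ : Finset (Fin (yn y) → Bool)).image (fun u => GS y (List.ofFn u))

theorem cellsOf_card (y : Str) : (cellsOf y).card = 2 ^ yn y := by
  unfold cellsOf
  rw [Finset.card_image_of_injective, Finset.card_univ, Fintype.card_fun, Fintype.card_bool,
    Fintype.card_fin]
  intro u u' h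
  exact List.ofFn_injective (GS_inj h).2

theorem mem_cellsOf {y g : Str} (h : g ∈ cellsOf y) : ∃ u : Str, u.length = yn y ∧ g = GS y u := by
  obtain ⟨u, _, rfl⟩ := Finset.mem_image.1 h
  exact ⟨List.ofFn u, by simp, rfl⟩

theorem dec_true (q : Bool) (i : Decidable (q = true)) : @decide (q = true) i = q := by
  cases q
  · rw [decide_eq_false_iff_not]; simp
  · rw [decide_eq_true_iff]

open Classical in
theorem stage (t : ℕ) (p : Polynomial ℕ) : ∃ k0 : ℕ, ∀ k ≥ k0, ∀ (M : Prog) (a : Str) (b N : ℕ)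
    (O0 : Lang), Con O0 → ∃ (N1 : ℕ) (O1 : Lang), N ≤ N1 ∧ Con O1 ∧
      (∀ v : Str, v.length < N → O1 v = O0 v) ∧
      ∀ O : Lang, (∀ v : Str, v.length < N1 → O v = O1 v) →
        ∃ x : Str, ¬ (SigmaRel O (t + 1) x k ↔ MS t M p a b x O) := by
  obtain ⟨c, hc, hmach⟩ := mach_isC t p
  obtain ⟨A, b1, k0, hA, hnum⟩ := num_M c t hc
  refine ⟨k0, fun k hk M a b N O0 h0 => ?_⟩
  obtain ⟨n1, hn1⟩ := hmach M a b
  obtain ⟨n2, hn2⟩ := hnum k hk b
  set n := max (max n1 n2) (max N 2) with hn
  have e1 : n1 ≤ n := le_trans (le_max_left _ _) (le_max_left _ _)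
  have e2 : n2 ≤ n := le_trans (le_max_right _ _) (le_max_left _ _)
  have e3 : N ≤ n := le_trans (le_max_left _ _) (le_max_right _ _)
  have e4 : 2 ≤ n := le_trans (le_max_right _ _) (le_max_right _ _)
  obtain ⟨hM1, hM2, hM3, hM4⟩ := hn2 n e2
  have hC := hn1 n e1
  clear_value n
  set m := Nat.log 2 n with hm
  set x : Str := on1 n with hx
  have hxl : x.length = n := by simp [hx, on1]
  have hlg : lg x = m := by rw [lg, hxl]
  set K := k * m with hK
  set σ := A * b1 * m with hσ
  set P := n ^ (c + c * A + b1) with hP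
  have hP1 : 1 ≤ P := Nat.one_le_pow _ _ (by omega)
  set St : Set Str := {v | ∃ w : Str, w.length = (t + 1) * K ∧ v = RS x k w} with hSt
  set Lr : Set Str := Lrg n σ (n ^ c) with hLr
  have hStL : ∀ v ∈ St, n ≤ v.length ∧ ∀ y u : Str, v ≠ GS y u := by
    rintro v ⟨w, _, rfl⟩
    refine ⟨?_, fun y u => RS_ne_GS _ _ _ _ _⟩
    rw [RS_length, hxl]; omega
  have hinl := inline O0 n σ c P St e4 hStL
    (fun y h1 h2 => num_P n c A b1 e4 hA y h1 h2) hP1
  choose T hT1 hT2 hT3 using hinl
  set f : Lang → Bool := fun O => decide (MS t M p a b x O) with hf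
  -- the circuit on the free strings
  let sub : Str → DT Str Bool := fun v => if h : v.length ≤ n ^ c then T v h else DT.leaf false
  have hsub : ∀ v (h : v.length ≤ n ^ c), sub v = T v h := fun v h => by simp only [sub, dif_pos h]
  have hC2 := hC.subst (S' := St ∪ Lr) (d := P ^ c) sub
    (fun v hv => by rw [hsub v hv]; exact hT1 v hv)
    (fun v hv => by rw [hsub v hv]; exact hT2 v hv)
  set f1 : Lang → Bool := fun O => f (fun v => (sub v).eval O) with hf1
  have hgood : ∀ O, Good O0 n σ St O → f1 O = f O := by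
    intro O hO
    refine IsC.eval_congr (S := SL (n ^ c)) (fun v hv => ?_) hC
    rw [hsub v hv]
    exact (hT3 v hv O hO).symm
  -- the circuit on the variables of the lower bound theorem
  set par : Bool := decide ((t + 1) % 2 = 1) with hpar
  let ψ : Str → DT (List ℕ ⊕ Str) Bool := fun v =>
    if h : ∃ u : List ℕ, u.length = t + 1 ∧ (∀ a ∈ u, a < 2 ^ K) ∧ v = RS x k (wd K u) then
      DT.node (Sum.inl h.choose) (DT.leaf (xor false par)) (DT.leaf (xor true par))
    else DT.node (Sum.inr v) (DT.leaf false) (DT.leaf true)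
  have hψ1 : ∀ (u : List ℕ), u.length = t + 1 → (∀ a ∈ u, a < 2 ^ K) →
      ∀ z, (ψ (RS x k (wd K u))).eval z = xor (z (Sum.inl u)) par := by
    intro u hu1 hu2 z
    have h : ∃ u' : List ℕ, u'.length = t + 1 ∧ (∀ a ∈ u', a < 2 ^ K) ∧
      RS x k (wd K u) = RS x k (wd K u') := ⟨u, hu1, hu2, rfl⟩
    have h2 : h.choose = u := by
      obtain ⟨g1, g2, g3⟩ := h.choose_spec
      exact (wd_inj K u _ (hu1.trans g1.symm) hu2 g2 (RS_inj g3)).symm
    simp only [ψ, dif_pos h, DT.eval, h2]
    cases z (Sum.inl u) <;> simp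
  have hψ2 : ∀ y u z, (ψ (GS y u)).eval z = z (Sum.inr (GS y u)) := by
    intro y u z
    have h : ¬ ∃ u' : List ℕ, u'.length = t + 1 ∧ (∀ a ∈ u', a < 2 ^ K) ∧
        GS y u = RS x k (wd K u') := by
      rintro ⟨u', _, _, h⟩
      exact RS_ne_GS _ _ _ _ _ h.symm
    simp only [ψ, dif_neg h, DT.eval]
    cases z (Sum.inr (GS y u)) <;> simp
  have hC3 := hC2.subst (S' := Set.univ) (d := 1) ψ
    (fun v _ => by simp only [ψ]; split_ifs <;> simp [DT.depth])
    (fun v _ => by simp only [ψ]; split_ifs <;> exact ⟨trivial, trivial, trivial⟩)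
  rw [mul_one] at hC3
  -- the lower bound
  have hn1 : 1 ≤ n ^ c := Nat.one_le_pow _ _ (by omega)
  obtain ⟨z, F, hF1, hF2⟩ := LBG (b * m) (n ^ (c + 1)) (2 ^ K)
    (Nat.pow_le_pow_right (by norm_num) hM3) (Γ := Str) (Y := LY n σ (n ^ c))
    ((LY_card _ _ _).trans (Nat.pow_le_pow_right (by norm_num) (by
      rw [pow_succ, mul_comm]; exact Nat.mul_le_mul_left _ e4))) t (n ^ c * P ^ c)
    (fun _ => 2 ^ K) (fun y => cellsOf y.1) (fun i _ => ⟨hM1, le_rfl⟩) (fun y => by
      rw [cellsOf_card]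
      exact hM2.trans (Nat.pow_le_pow_right (by norm_num) y.2.2.2)) _ hC3
  have hF1' : ∀ y : LY n σ (n ^ c), ∃ u : Str, u.length = yn y.1 ∧ GS y.1 u ∉ F := by
    intro y
    obtain ⟨g, hg, hg2⟩ := hF1 y
    obtain ⟨u, hu, rfl⟩ := mem_cellsOf hg
    exact ⟨u, hu, hg2⟩
  choose pu hpu1 hpu2 using hF1'
  -- the oracle
  let pos : Str → Str := fun y => if h : y ∈ LY n σ (n ^ c) then pu ⟨y, h⟩ else
    List.replicate (yn y) false
  have hpos : ∀ y, (pos y).length = yn y := by
    intro y
    simp only [pos]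
    split_ifs with h
    · exact hpu1 ⟨y, h⟩
    · simp
  let X : Lang := fun v => if v.length < n then O0 v else if v ∈ St then (ψ v).eval z else
    if v ∈ Lr then z (Sum.inr v) else false
  obtain ⟨O, hO1, hO2, hO3⟩ := fix_spec X pos hpos
  have hO3' := hO3 n O0 h0 (fun v hv => by simp only [X, if_pos hv])
  have hStO : ∀ v ∈ St, O v = (ψ v).eval z := by
    intro v hv
    rw [hO2 v (fun y => (hStL v hv).2 _ _)]
    simp only [X]
    rw [if_neg (by have := (hStL v hv).1; omega), if_pos hv]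
  have hnSt : ∀ y u, GS y u ∉ St := by
    rintro y u ⟨w, _, h⟩
    exact RS_ne_GS _ _ _ _ _ h.symm
  have hGood : Good O0 n σ St O := by
    refine ⟨hO1, hO3', ?_, ?_⟩
    · intro v hv1 hv2 hv3
      rw [hO2 v (fun y => hv3 y _ (hpos y))]
      simp only [X]
      rw [if_neg (by omega), if_neg hv2, if_neg]
      rintro ⟨y, u, h1, h2, _⟩
      exact hv3 y u h2 h1
    · intro y u h1 h2 h3 h4
      have hy : y ∉ LY n σ (n ^ c) := by
        rintro ⟨_, _, h⟩
        omega
      rw [hO2 (GS y u) (by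
        intro y' h
        obtain ⟨rfl, h⟩ := GS_inj h
        apply h4
        rw [h]
        simp only [pos, dif_neg hy])]
      simp only [X]
      rw [if_neg (by omega), if_neg (hnSt y u), if_neg]
      rintro ⟨y', u', g1, g2, g3, _⟩
      obtain ⟨rfl, rfl⟩ := GS_inj g1
      omega
  -- the assignment
  let z' : List ℕ ⊕ Str → Bool := Sum.elim (fun u => z (Sum.inl u))
    (fun g => if g ∈ Lr then O g else z (Sum.inr g))
  have hne := hF2 z' (fun _ => rfl) (by
    intro g hg
    simp only [z', Sum.elim_inr]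
    split_ifs with hg2
    · obtain ⟨y, u, rfl, h2, h3, h4, h5⟩ := id hg2
      rw [GS_length, h2] at h4 h5
      have hy : y ∈ LY n σ (n ^ c) := ⟨h4, h5, h3⟩
      rw [hO2 (GS y u) (by
        intro y' h
        obtain ⟨rfl, h⟩ := GS_inj h
        apply hpu2 ⟨y, hy⟩
        have : pu ⟨y, hy⟩ = u := by rw [h]; simp only [pos, dif_pos hy]
        rw [this]
        exact hg)]
      simp only [X]
      rw [if_neg (by rw [GS_length, h2]; omega), if_neg (hnSt y u), if_pos hg2]
    · rfl)
  have hf2 : f1 (fun v => (ψ v).eval z') = f1 O := by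
    refine IsC.eval_congr (S := St ∪ Lr) (fun v hv => ?_) hC2
    rcases hv with hv | hv
    · rw [hStO v hv]
      obtain ⟨w, hw, rfl⟩ := hv
      obtain ⟨u, hu1, hu2, rfl⟩ := wd_surj K (t + 1) w hw
      rw [hψ1 u hu1 hu2, hψ1 u hu1 hu2]
      rfl
    · obtain ⟨y, u, rfl, _⟩ := id hv
      rw [hψ2]
      simp only [z', Sum.elim_inr, if_pos hv]
  have hsig : tr (fun _ => 2 ^ K) (t + 1) (fun v => z' (Sum.inl v)) []
      = decide (SigmaRel O (t + 1) x k) := by
    have h1 := alt_tr K (t + 1) (fun w => O (RS x k w) = true)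
    have h2 : SigmaRel O (t + 1) x k = Alt K (t + 1) true (fun w => O (RS x k w) = true) [] := by
      unfold SigmaRel
      rw [hlg]
      rfl
    rw [h2, h1]
    apply tr_congr _ (2 ^ K)
    · intro i _; exact le_rfl
    · simp
    · intro v hv1 hv2
      have hv1 : v.length = t + 1 := by simpa using hv1
      have h3 : O (RS x k (wd K v)) = xor (z (Sum.inl v)) par := by
        rw [hStO _ ⟨wd K v, by rw [wd_length, hv1], rfl⟩, hψ1 v hv1 hv2]
      have h5 : z' (Sum.inl v) = z (Sum.inl v) := rfl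
      rw [dec_true, h3, h5, Bool.xor_assoc, Bool.xor_self, Bool.xor_false]
  have hfO : f O ≠ decide (SigmaRel O (t + 1) x k) := by
    rw [← hsig, ← hgood O hGood, ← hf2]
    exact hne
  refine ⟨n + n ^ c + (2 * n + 2 * k + 3 + (t + 1) * K) + 1, O, by omega, hO1,
    fun v hv => hO3' v (by omega), fun O' hO' => ⟨x, fun h => hfO ?_⟩⟩
  have h1 : f O' = f O := IsC.eval_congr (S := SL (n ^ c)) (fun v hv => hO' v (by
    have : v.length ≤ n ^ c := hv
    omega)) hC
  have h2 : SigmaRel O' (t + 1) x k ↔ SigmaRel O (t + 1) x k := by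
    apply alt_congr
    intro w hw
    rw [hO' _ (by
      have h3 := RS_length x k w
      unfold RS at h3
      rw [h3, hxl, hw, hlg, List.length_nil, ← hK]
      omega)]
  rw [← h1]
  exact decide_eq_decide.2 (h.symm.trans h2)

end Pool.Agent.Lib.Pf91712p
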